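import Pool.Agent.Lib_MP_38e082_mm.Amal1

/-!
# AMAL2: the functions attached to a name

`gC_spec`: `U.od` is injective and `cd_inj`, so the chosen pair is `(a, l)`. `FC_countable`,
`FC_hat`: as for `BF` (`hat^[k+1] = hat ∘ hat^[k]`, `Function.iterate_succ_apply'`). `RC_spec`:
`Classical.choose_spec`.
-/

open Cardinal Set

namespace Pool.Agent.Lib_MP_38e082_mm

variable {K : Type} [LinearOrder K] {lam : Cardinal.{0}} {J : ℕ → Set K} {f : K → Set K}

/-- there is a condition in `C b`, `b > a`, below `l` which adds exactly the points `z` -/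
def PhiC (C : Om → Set (Cond lam J f)) (a : Om) (l : List (Blk K)) (z : List K) : Prop :=
  ∃ (t : Cond lam J f) (b : Om), a < b ∧ t ∈ C b ∧ (∀ c ∈ l, ∃ d ∈ t.l, Rel lam J c.1 d.1) ∧
    sp t.l = sp l ∪ {x | x ∈ z}

open Classical in
/-- code of a witness of `PhiC` -/
noncomputable def RC (C : Om → Set (Cond lam J f)) (a : Om) (l : List (Blk K)) (z : List K) :
    U K :=
  if h : PhiC C a l z then pr (cd h.choose.l) (U.od h.choose_spec.choose) else U.st ∅

open Classical in
/-- the tree code as a function of the codes of `a` and `l` -/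
noncomputable def gC [Nonempty K] (C : Om → Set (Cond lam J f)) (k : ℕ) (u v : U K) : U K :=
  if h : ∃ p : Om × List (Blk K), u = U.od p.1 ∧ Val lam J f p.2 ∧ v = cd p.2 then
    Tc lam (PhiC C h.choose.1 h.choose.2) (RC C h.choose.1 h.choose.2) k [] else u

/-- the closure functions attached to `C` -/
noncomputable def FC [Nonempty K] (C : Om → Set (Cond lam J f)) : Set (U K → U K → U K) :=
  BF lam J f ∪ Set.range fun p : ℕ × ℕ => hat^[p.2] (gC C p.1)

theorem gC_spec [Nonempty K] (C : Om → Set (Cond lam J f)) (k : ℕ) (a : Om)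
    {l : List (Blk K)} (hl : Val lam J f l) :
    gC C k (U.od a) (cd l) = Tc lam (PhiC C a l) (RC C a l) k [] := by
  have hex : ∃ p : Om × List (Blk K), (U.od a : U K) = U.od p.1 ∧ Val lam J f p.2 ∧
      cd l = cd p.2 := ⟨(a, l), rfl, hl, rfl⟩
  have h : hex.choose = (a, l) := by
    obtain ⟨h1, h2, h3⟩ := hex.choose_spec
    have e1 : a = hex.choose.1 := by
      injection h1
    have e2 : l = hex.choose.2 := cd_inj hl h2 h3
    exact Prod.ext e1.symm e2.symm
  unfold gC
  rw [dif_pos hex, h]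

theorem FC_countable [Nonempty K] (C : Om → Set (Cond lam J f)) : (FC C).Countable :=
  BF_countable.union (Set.countable_range _)

theorem FC_hat [Nonempty K] (C : Om → Set (Cond lam J f)) : HatC (FC C) := by
  intro Φ hΦ
  rcases hΦ with hΦ | ⟨p, rfl⟩
  · exact Or.inl (BF_hat Φ hΦ)
  · exact Or.inr ⟨(p.1, p.2 + 1), Function.iterate_succ_apply' hat p.2 (gC C p.1)⟩

theorem RC_spec {C : Om → Set (Cond lam J f)} {a : Om} {l : List (Blk K)} {z : List K}
    (h : PhiC C a l z) : ∃ (t : Cond lam J f) (b : Om), a < b ∧ t ∈ C b ∧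
      (∀ c ∈ l, ∃ d ∈ t.l, Rel lam J c.1 d.1) ∧ sp t.l = sp l ∪ {x | x ∈ z} ∧
      RC C a l z = pr (cd t.l) (U.od b) := by
  obtain ⟨h1, h2, h3, h4⟩ := h.choose_spec.choose_spec
  exact ⟨h.choose, h.choose_spec.choose, h1, h2, h3, h4, by unfold RC; rw [dif_pos h]⟩

end Pool.Agent.Lib_MP_38e082_mm
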