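import Pool.Agent.Lib_MP_38e082_mm.Lst

/-!
# AMAL1: order of the conditions, amalgamation

## Proof
`amalg`: `sp (N' :: L') = sp (N :: L)` because the second components agree. Free: cases, an element
of `sp q.l` is in `sp l0`, in `ys` (both in `sp t.l`) or in `sp (N :: L)`; `t.fr`, `r.fr`
(`sp r.l = sp l0 ∪ sp (N :: L)`) and `hfree`. `gd`: `Av f (sp q.l)` contains the set of `hun`.
Validity: `glue`. `q ≤ r`: a block of `l0` by `ht1`, a block of `N :: L` by `hrel`. `cle_trans`: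
`Rel.trans`.
-/

open Cardinal Set

namespace Pool.Agent.Lib_MP_38e082_mm

variable {K : Type} [LinearOrder K] {lam : Cardinal.{0}} {J : ℕ → Set K} {f : K → Set K}

theorem cle_refl (p : Cond lam J f) : CLe p p :=
  ⟨Subset.rfl, fun b hb => ⟨b, hb, Rel.refl⟩⟩

theorem cle_trans {p q r : Cond lam J f} (h : CLe p q) (h' : CLe q r) : CLe p r := by
  refine ⟨h'.1.trans h.1, fun b hb => ?_⟩
  obtain ⟨c, hc, hbc⟩ := h'.2 b hb
  obtain ⟨d, hd, hcd⟩ := h.2 c hc
  exact ⟨d, hd, hbc.trans hcd⟩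

instance : Preorder (Cond lam J f) where
  le := CLe
  le_refl := cle_refl
  le_trans _ _ _ := cle_trans

/-- the points of a list depend only on the second components -/
private theorem amal1_mem_sp {l : List (Blk K)} {x : K} :
    x ∈ sp l ↔ some x ∈ l.map Prod.snd := by
  rw [List.mem_map]
  exact Iff.rfl

private theorem amal1_sp_eq {l l' : List (Blk K)} (h : l'.map Prod.snd = l.map Prod.snd) :
    sp l' = sp l := by
  ext x
  rw [amal1_mem_sp, amal1_mem_sp, h]

private theorem amal1_forall₂ {l l' : List (Blk K)}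
    (h : List.Forall₂ (fun b c : Blk K => Rel lam J b.1 c.1) l l') :
    ∀ b ∈ l, ∃ c ∈ l', Rel lam J b.1 c.1 := by
  induction h with
  | nil => intro b hb; simp at hb
  | cons hab _ ih =>
    intro b hb
    rcases List.mem_cons.1 hb with rfl | hb
    · exact ⟨_, List.mem_cons_self, hab⟩
    · obtain ⟨c, hc, hbc⟩ := ih b hb
      exact ⟨c, List.mem_cons_of_mem _ hc, hbc⟩

theorem amalg {r t : Cond lam J f} {l0 : List (Blk K)} {N : Blk K} {L : List (Blk K)}
    {N' : Blk K} {L' : List (Blk K)} {ys : List K} (hr : r.l = l0 ++ N :: L)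
    (ht1 : ∀ c ∈ l0, ∃ d ∈ t.l, Rel lam J c.1 d.1) (ht2 : sp t.l = sp l0 ∪ {x | x ∈ ys})
    (hv : Val lam J f (N' :: L')) (hcd : cd t.l ∈ N'.1)
    (hsnd : (N' :: L').map Prod.snd = (N :: L).map Prod.snd)
    (hrel : List.Forall₂ (fun b c : Blk K => Rel lam J b.1 c.1) (N :: L) (N' :: L'))
    (hfree : ∀ y ∈ ys, ∀ x ∈ sp (N :: L), y ∉ f x ∧ x ∉ f y)
    (hun : Unb {x | x ∈ Av f (sp r.l) ∧ ∀ y ∈ ys, y ∉ f x}) :
    ∃ q : Cond lam J f, q.l = t.l ++ N' :: L' ∧ q ≤ r ∧ q ≤ t := by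
  have h1 : sp (N' :: L') = sp (N :: L) := amal1_sp_eq hsnd
  have h2 : sp r.l = sp l0 ∪ sp (N :: L) := by rw [hr, sp_append]
  have h3 : sp (t.l ++ N' :: L') = sp t.l ∪ sp (N :: L) := by rw [sp_append, h1]
  have h4 : ∀ x ∈ sp l0, x ∈ sp r.l := fun x hx => by rw [h2]; exact Or.inl hx
  have h5 : ∀ x ∈ sp (N :: L), x ∈ sp r.l := fun x hx => by rw [h2]; exact Or.inr hx
  have hfr : Fre f (sp (t.l ++ N' :: L')) := by
    rw [h3]
    intro x hx y hy hxy
    rcases hx with hx | hx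
    · rcases hy with hy | hy
      · exact t.fr x hx y hy hxy
      · rw [ht2] at hx
        rcases hx with hx | hx
        · exact r.fr x (h4 x hx) y (h5 y hy) hxy
        · exact (hfree x hx y hy).2
    · rcases hy with hy | hy
      · rw [ht2] at hy
        rcases hy with hy | hy
        · exact r.fr x (h5 x hx) y (h4 y hy) hxy
        · exact (hfree y hy x hx).1
      · exact r.fr x (h5 x hx) y (h5 y hy) hxy
  have hgd : Unb (Av f (sp (t.l ++ N' :: L'))) := by
    intro b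
    obtain ⟨x, ⟨hx1, hx2⟩, hx3⟩ := hun b
    refine ⟨x, ?_, hx3⟩
    intro y hy
    rw [h3] at hy
    rcases hy with hy | hy
    · rw [ht2] at hy
      rcases hy with hy | hy
      · exact hx1 y (h4 y hy)
      · exact hx2 y hy
    · exact hx1 y (h5 y hy)
  refine ⟨⟨t.l ++ N' :: L', glue t.va hv hcd, hfr, hgd⟩, rfl, ⟨?_, ?_⟩, ⟨?_, ?_⟩⟩
  · show sp r.l ⊆ sp (t.l ++ N' :: L')
    rw [h2, h3, ht2]
    rintro x (hx | hx)
    · exact Or.inl (Or.inl hx)
    · exact Or.inr hx
  · intro b hb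
    rw [hr] at hb
    rcases List.mem_append.1 hb with hb | hb
    · obtain ⟨d, hd, hbd⟩ := ht1 b hb
      exact ⟨d, List.mem_append_left _ hd, hbd⟩
    · obtain ⟨c, hc, hbc⟩ := amal1_forall₂ hrel b hb
      exact ⟨c, List.mem_append_right _ hc, hbc⟩
  · show sp t.l ⊆ sp (t.l ++ N' :: L')
    rw [h3]
    exact subset_union_left
  · intro b hb
    exact ⟨b, List.mem_append_left _ hb, Rel.refl⟩

end Pool.Agent.Lib_MP_38e082_mm
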