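import Pool.Agent.Lib_MP_38e082_mm.Ext

/-!
# BDD1: large differences, exceptional points

## Proof
`diff_big`: split `Z` into `lam` many pairwise disjoint sets `Z_i` of size `lam` (`lam * lam = lam`,
equivalence `Z ≃ Z × Z`). For each `i` there is `b_i` with `¬ Z_i ⊆ f x` for `x ≥ b_i` (`hh`); `b` =
bound of the `b_i` (`bdd`). For `x ≥ b` choose `z_i ∈ Z_i \ f x`; so `#(Z \ f x) ≥ lam`.
`exc_card`: otherwise there is `Y` of size `lam` in the set; for `y ∈ Y` there is `b_y` such that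
`y ∈ f x` for all `x ∈ X`, `x ≥ b_y`; let `b` bound all `b_y`, and `b'` from `hh` for `Y`; `x ∈ X` with
`x ≥ max b b'` gives `Y ⊆ f x`, contradiction.
-/

open Cardinal Set

namespace Pool.Agent.Lib_MP_38e082_mm

variable {K : Type} [LinearOrder K] {lam : Cardinal.{0}} {J : ℕ → Set K} {f : K → Set K}

theorem diff_big (hc : Ctx K lam J f) {Z : Set K} (hZ : #Z = lam) :
    ∃ b, ∀ x, b ≤ x → #(Z \ f x : Set K) = lam := by
  have hlam : ℵ₀ ≤ lam := (aleph0_le_aleph 1).trans hc.inf.le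
  have hmul : #(Z × Z) = #Z := by
    rw [mk_prod]
    simp only [lift_id]
    rw [hZ, mul_eq_self hlam]
  obtain ⟨e⟩ := Cardinal.eq.1 hmul
  -- the pieces
  let Zi : Z → Set K := fun i => Set.range fun j : Z => ((e (i, j) : Z) : K)
  have hZi : ∀ i, #(Zi i) = lam := by
    intro i
    have hinj : Function.Injective fun j : Z => ((e (i, j) : Z) : K) := by
      intro j j' h
      have h1 : e (i, j) = e (i, j') := Subtype.ext h
      exact (Prod.ext_iff.1 (e.injective h1)).2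
    rw [mk_range_eq _ hinj, hZ]
  choose b hb using fun i => hc.hh (Zi i) (hZi i)
  obtain ⟨b', hb'⟩ := hc.bdd (Set.range b) (mk_range_le.trans hZ.le)
  refine ⟨b', fun x hx => le_antisymm ?_ ?_⟩
  · exact (mk_le_mk_of_subset Set.sdiff_subset).trans hZ.le
  · have h1 : ∀ i, ∃ j : Z, ((e (i, j) : Z) : K) ∉ f x := by
      intro i
      have h2 := hb i x ((hb' (b i) (Set.mem_range_self i)).le.trans hx)
      rw [Set.not_subset] at h2
      obtain ⟨z, ⟨j, hj⟩, hz⟩ := h2
      exact ⟨j, by rw [show ((e (i, j) : Z) : K) = z from hj]; exact hz⟩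
    choose j hj using h1
    rw [← hZ]
    refine mk_le_of_injective (f := fun i : Z =>
      (⟨((e (i, j i) : Z) : K), (e (i, j i)).2, hj i⟩ : (Z \ f x : Set K))) ?_
    intro i i' h
    have h3 : ((e (i, j i) : Z) : K) = ((e (i', j i') : Z) : K) :=
      congrArg (fun u : (Z \ f x : Set K) => (u : K)) h
    have h4 : e (i, j i) = e (i', j i') := Subtype.ext h3
    exact (Prod.ext_iff.1 (e.injective h4)).1

theorem exc_card (hc : Ctx K lam J f) {X : Set K} (hX : Unb X) :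
    #{y | ¬ Unb {x | x ∈ X ∧ y ∉ f x}} < lam := by
  by_contra hcon
  rw [not_lt] at hcon
  obtain ⟨Y, hYs, hY⟩ := le_mk_iff_exists_subset.1 hcon
  have h1 : ∀ y : Y, ∃ b, ∀ x ∈ X, b ≤ x → (y : K) ∈ f x := by
    intro y
    have h2 : ¬ Unb {x | x ∈ X ∧ (y : K) ∉ f x} := hYs y.2
    unfold Unb at h2
    push Not at h2
    obtain ⟨b, hb⟩ := h2
    refine ⟨b, fun x hx hbx => ?_⟩
    by_contra hyx
    exact absurd hbx (not_le.2 (hb x ⟨hx, hyx⟩))
  choose b hb using h1
  obtain ⟨b1, hb1⟩ := hc.bdd (Set.range b) (mk_range_le.trans hY.le)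
  obtain ⟨b2, hb2⟩ := hc.hh Y hY
  obtain ⟨x, hx, hbx⟩ := hX (max b1 b2)
  refine hb2 x ((le_max_right _ _).trans hbx) fun y hy => ?_
  exact hb ⟨y, hy⟩ x hx
    ((hb1 _ (Set.mem_range_self (⟨y, hy⟩ : Y))).le.trans ((le_max_left _ _).trans hbx))

end Pool.Agent.Lib_MP_38e082_mm
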