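import Pool.Agent.Lib_MP_38e082_mm.Rl

/-!
# RELC: number of relevant extensions

## Proof
Levels `R_0 = {M}`, `R_(k+1) = {ext N y | N ∈ R_k, st Y ∈ N, #Y = lam, y ∈ Y}`; all members are
countable (`rel_countable` or `ext_countable`), so `#R_(k+1) ≤ #R_k * ℵ₀ * lam ≤ lam`, and the union
over `k` has size `≤ ℵ₀ * lam = lam` and contains all `N` with `Rel M N`.
-/

open Cardinal Set

namespace Pool.Agent.Lib_MP_38e082_mm

variable {K : Type} [LinearOrder K] {lam : Cardinal.{0}} {J : ℕ → Set K} {f : K → Set K}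

theorem relc_union {α β : Type} {lam : Cardinal.{0}} (hl : ℵ₀ ≤ lam) (S : Set α) (F : α → Set β)
    (hS : #S ≤ lam) (hF : ∀ a ∈ S, #(F a) ≤ lam) : #(⋃ a ∈ S, F a : Set β) ≤ lam := by
  refine (Cardinal.mk_biUnion_le F S).trans ?_
  have h1 : (⨆ x : S, #(F x.1)) ≤ lam := ciSup_le' fun x => hF x.1 x.2
  calc #S * (⨆ x : S, #(F x.1)) ≤ lam * lam := mul_le_mul' hS h1
    _ = lam := Cardinal.mul_eq_self hl

/-- the levels of relevant extensions -/
def relcL (lam : Cardinal.{0}) (M : Set (U K)) : ℕ → Set (Set (U K))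
  | 0 => {M}
  | k + 1 => ⋃ N ∈ relcL lam M k, ⋃ Y ∈ {Y : Set K | U.st Y ∈ N ∧ #Y = lam}, (ext N) '' Y

theorem relc_level {M : Set (U K)} (hl : ℵ₀ ≤ lam) (hM : M.Countable) (k : ℕ) :
    (∀ N ∈ relcL lam M k, N.Countable) ∧ #(relcL lam M k) ≤ lam := by
  induction k with
  | zero =>
    refine ⟨?_, ?_⟩
    · intro N hN
      rw [relcL, mem_singleton_iff] at hN
      rw [hN]
      exact hM
    · rw [relcL, Cardinal.mk_singleton]
      exact Cardinal.one_le_aleph0.trans hl
  | succ k ih =>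
    refine ⟨?_, ?_⟩
    · intro N hN
      rw [relcL] at hN
      simp only [mem_iUnion] at hN
      obtain ⟨N', hN', Y, -, y, -, rfl⟩ := hN
      exact ext_countable (ih.1 N' hN') y
    · rw [relcL]
      apply relc_union hl _ _ ih.2
      intro N hN
      apply relc_union hl
      · have h1 : ({Y : Set K | U.st Y ∈ N}).Countable :=
          (ih.1 N hN).preimage (fun _ _ h => U.st.inj h)
        have h2 : ({Y : Set K | U.st Y ∈ N ∧ #Y = lam}).Countable := h1.mono fun Y h => h.1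
        exact (Cardinal.le_aleph0_iff_set_countable.2 h2).trans hl
      · intro Y hY
        exact Cardinal.mk_image_le.trans hY.2.le

omit [LinearOrder K] in
theorem relc_mem {M N : Set (U K)} (h : Rel lam J M N) : ∃ k, N ∈ relcL lam M k := by
  induction h with
  | refl => exact ⟨0, rfl⟩
  | step h hY hc hy ht hg ih =>
    obtain ⟨k, hk⟩ := ih
    refine ⟨k + 1, ?_⟩
    rw [relcL]
    simp only [mem_iUnion]
    exact ⟨_, hk, _, ⟨hY, hc⟩, _, hy, rfl⟩

theorem rel_card (hc : Ctx K lam J f) {M : Set (U K)} (hM : M.Countable) :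
    #{N | Rel lam J M N} ≤ lam := by
  have hl : ℵ₀ ≤ lam := Cardinal.aleph0_lt_aleph_one.le.trans hc.inf.le
  have h1 : {N | Rel lam J M N} ⊆ ⋃ k ∈ (univ : Set ℕ), relcL lam M k := by
    intro N hN
    obtain ⟨k, hk⟩ := relc_mem hN
    simp only [mem_iUnion]
    exact ⟨k, mem_univ _, hk⟩
  refine (Cardinal.mk_le_mk_of_subset h1).trans (relc_union hl _ _ ?_ ?_)
  · exact (Cardinal.le_aleph0_iff_set_countable.2 (Set.to_countable _)).trans hl
  · intro k _
    exact (relc_level hl hM k).2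

end Pool.Agent.Lib_MP_38e082_mm
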