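import Pool.Agent.Lib_MP_38e082_mm.GoodC
import Pool.Agent.Lib_MP_38e082_mm.RelC
import Pool.Agent.Lib_MP_38e082_mm.Bdd1

/-!
# EBD: all large points are beyond a model

## Proof
For each `N` with `Rel M N` (then `N` is countable, closed under `BF`, good: `Rel.mod`) and each `Y`
with `st Y ∈ N`, `#Y = lam` there is a bound with all properties (`bdd` for the union of the sets
`f y`, `y ∈ Y`, of size `≤ lam * lam`; `good_card` and `diff_big` for `Good J N Y`); for each `N` a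
bound for the countable set of points `y` of `N` and all `f y`. There are at most `lam` pairs `(N, Y)`
(`rel_card`); take a bound of all bounds (`bdd`).
-/

open Cardinal Set

namespace Pool.Agent.Lib_MP_38e082_mm

variable {K : Type} [LinearOrder K] {lam : Cardinal.{0}} {J : ℕ → Set K} {f : K → Set K}

private theorem bdd_al (hc : Ctx K lam J f) : ℵ₀ ≤ lam :=
  (Cardinal.aleph0_le_aleph 1).trans hc.inf.le

private theorem bdd_fam (hc : Ctx K lam J f) {ι : Type} (hι : #ι ≤ lam) (g : ι → K) :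
    ∃ b, ∀ i, g i < b := by
  obtain ⟨b, hb⟩ := hc.bdd (Set.range g) (Cardinal.mk_range_le.trans hι)
  exact ⟨b, fun i => hb _ ⟨i, rfl⟩⟩

private theorem bdd_un (hc : Ctx K lam J f) (A : Set K) (hA : #A ≤ lam) :
    ∃ b, ∀ y ∈ A, y < b ∧ ∀ z ∈ f y, z < b := by
  have h : ∀ y : K, ∃ c, ∀ z ∈ f y, z < c := fun y => hc.bdd (f y) (hc.fc y)
  choose c hcc using h
  obtain ⟨b1, hb1⟩ := hc.bdd A hA
  obtain ⟨b2, hb2⟩ := bdd_fam hc (ι := A) hA (fun y => c y.1)
  refine ⟨max b1 b2, fun y hy => ⟨lt_max_of_lt_left (hb1 y hy), fun z hz => ?_⟩⟩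
  exact lt_max_of_lt_right ((hcc y z hz).trans (hb2 ⟨y, hy⟩))

private theorem bdd_ct {S : Set (U K)} (hS : S.Countable) {ι : Type} (g : ι → U K)
    (hg : Function.Injective g) (hc : Ctx K lam J f) : #{i | g i ∈ S} ≤ lam := by
  have h : {i | g i ∈ S}.Countable := hS.preimage_of_injOn hg.injOn
  exact (Cardinal.le_aleph0_iff_set_countable.2 h).trans (bdd_al hc)

theorem exists_bd (hc : Ctx K lam J f) {M : Set (U K)} (hM : Mod lam J f M) :
    ∃ b, ∀ x, b ≤ x → Bd lam J f M x := by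
  classical
  have hN : ∀ N : {N | Rel lam J M N}, ∃ b, ∀ x, b ≤ x →
      (∀ y, U.pt y ∈ N.1 → y < x ∧ ∀ z ∈ f y, z < x) ∧
      ∀ Y, U.st Y ∈ N.1 → #Y = lam → (∀ y ∈ Y, ∀ z ∈ f y, z < x) ∧
        #(Good J N.1 Y \ f x : Set K) = lam := by
    rintro ⟨N, hR⟩
    have hm : Mod lam J f N := Rel.mod hR hM
    have h1 : #{y : K | U.pt y ∈ N} ≤ lam :=
      bdd_ct hm.ct (fun y : K => U.pt y) (fun a b h => by simpa using h) hc
    obtain ⟨b1, hb1⟩ := bdd_un hc _ h1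
    have h2 : #{Y : Set K | U.st Y ∈ N} ≤ lam :=
      bdd_ct hm.ct (fun Y : Set K => U.st Y) (fun a b h => by simpa using h) hc
    have h3 : ∀ Y : {Y : Set K | U.st Y ∈ N}, ∃ b, ∀ x, b ≤ x → #Y.1 = lam →
        (∀ y ∈ Y.1, ∀ z ∈ f y, z < x) ∧ #(Good J N Y.1 \ f x : Set K) = lam := by
      rintro ⟨Y, hY⟩
      by_cases hl : #Y = lam
      · obtain ⟨c1, hc1⟩ := bdd_un hc Y hl.le
        obtain ⟨c2, hc2⟩ := diff_big hc (good_card hc hm.cl hm.gd hY hl)
        refine ⟨max c1 c2, fun x hx _ => ⟨fun y hy z hz => ?_, ?_⟩⟩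
        · exact ((hc1 y hy).2 z hz).trans_le ((le_max_left _ _).trans hx)
        · exact hc2 x ((le_max_right _ _).trans hx)
      · exact ⟨b1, fun x _ h => absurd h hl⟩
    choose c hcc using h3
    obtain ⟨b2, hb2⟩ := bdd_fam hc h2 c
    refine ⟨max b1 b2, fun x hx => ⟨fun y hy => ?_, fun Y hY hl => ?_⟩⟩
    · have hx1 : b1 ≤ x := (le_max_left _ _).trans hx
      exact ⟨(hb1 y hy).1.trans_le hx1, fun z hz => ((hb1 y hy).2 z hz).trans_le hx1⟩
    · exact hcc ⟨Y, hY⟩ x ((hb2 ⟨Y, hY⟩).le.trans ((le_max_right _ _).trans hx)) hl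
  choose c hcc using hN
  obtain ⟨b, hb⟩ := bdd_fam hc (rel_card hc hM.ct) c
  refine ⟨b, fun x hx N hR => ?_⟩
  exact hcc ⟨N, hR⟩ x ((hb ⟨N, hR⟩).le.trans hx)

end Pool.Agent.Lib_MP_38e082_mm
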