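import Pool.Agent.Lib_MP_38e082_mm.Defs

/-!
# CTX: from cardinals to the standing assumptions

## Proof of `ctx_exists`
`K = (succ lam).ord.ToType`, a well order all of whose proper initial segments have size `≤ lam`
(`Cardinal.mk_Iio_ord_toType` or similar), `#K = succ lam`, so there is `e : S ≃ K`. `bdd`: `succ lam` is
regular (`Cardinal.isRegular_succ`), a set of size `< cof` is bounded. `unb`: an unbounded set of size
`≤ lam` would be bounded by `bdd` (strict bound). `J`: `lam` is a limit cardinal (its cofinality `ℵ₀` is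
`< lam`, so it is not regular; successors of infinite cardinals are regular) of cofinality `ℵ₀`: there is a
sequence `c_n < lam` cofinal in `lam` (from `lam.ord.cof = ℵ₀`), take the regular cardinals
`succ (max (c_n) ℵ₁) < lam` and subsets `J n` of `K` of these sizes (`Cardinal.le_mk_iff_exists_set`).
`hh`: for `Y` of size `lam` the set `X = {x | Y ⊆ f' x}` has size `≤ lam`: otherwise `#X = succ lam`
(`#X ≤ #K`), and `#(⋂ x ∈ X, f' x) ≥ #Y = lam`, contradiction (transfer along `e`: the hypothesis for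
`X' = e ⁻¹' X`, `⋂ x ∈ X', f x = e ⁻¹' (⋂ x ∈ X, f' x)`); so `X` is bounded.
-/

open Cardinal Set Order

namespace Pool.Agent.Lib_MP_38e082_mm

/-- the transferred set mapping -/
def trf {S K : Type} (e : S ≃ K) (f : S → Set S) (x : K) : Set K := e '' f (e.symm x)

/-- sequences of cardinals below a cardinal of countable cofinality -/
theorem ctxe_seq {lam : Cardinal.{0}} (hcof : lam.ord.cof = ℵ₀) :
    ∃ c : ℕ → Cardinal.{0}, (∀ n, c n < lam) ∧ ∀ d < lam, ∃ n, d ≤ c n := by
  obtain ⟨s, hs, hs'⟩ := Order.exists_cof_eq lam.ord.ToType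
  rw [Ordinal.cof_toType, hcof] at hs'
  have hne : s.Nonempty := by
    rw [Set.nonempty_iff_ne_empty]
    rintro rfl
    rw [Cardinal.mk_eq_zero] at hs'
    exact Cardinal.aleph0_ne_zero hs'.symm
  have hct : s.Countable := by
    rw [← Cardinal.le_aleph0_iff_set_countable, hs']
  obtain ⟨e, he⟩ := hct.exists_eq_range hne
  refine ⟨fun n => #(Set.Iio (e n)), fun n => ?_, fun d hd => ?_⟩
  · have h := Cardinal.mk_Iio_lt (e n) (by simp)
    simpa using h
  · have h1 : d.ord < lam.ord := Cardinal.ord_lt_ord.2 hd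
    obtain ⟨a, ha⟩ : ∃ a : lam.ord.ToType, #(Set.Iio a) = d := by
      have h2 : d.ord < Ordinal.type (α := lam.ord.ToType) (· < ·) := by
        rwa [Ordinal.type_toType]
      refine ⟨Ordinal.enum (α := lam.ord.ToType) (· < ·) ⟨d.ord, h2⟩, ?_⟩
      have h3 := Ordinal.card_typein (r := fun a b : lam.ord.ToType => a < b)
        (Ordinal.enum (α := lam.ord.ToType) (· < ·) ⟨d.ord, h2⟩)
      rw [Ordinal.typein_enum, Cardinal.card_ord] at h3
      exact h3.symm
    obtain ⟨b, hb, hab⟩ := hs a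
    rw [he] at hb
    obtain ⟨n, rfl⟩ := hb
    exact ⟨n, ha ▸ Cardinal.mk_le_mk_of_subset (Set.Iio_subset_Iio hab)⟩

/-- a cardinal of countable cofinality is closed under successors -/
theorem ctxe_succ {lam x : Cardinal.{0}} (hcof : lam.ord.cof = ℵ₀) (hx : ℵ₀ ≤ x) (h : x < lam) :
    succ x < lam := by
  refine lt_of_le_of_ne (succ_le_of_lt h) ?_
  rintro rfl
  rw [(isRegular_succ hx).cof_ord] at hcof
  exact absurd (hx.trans_lt (lt_succ x)) (by rw [hcof]; exact lt_irrefl _)

theorem ctx_exists {lam : Cardinal.{0}} (h0 : ℵ₀ < lam) (hcof : lam.ord.cof = ℵ₀) {S : Type}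
    (hS : #S = succ lam) {f : S → Set S} (hff : ∀ x, x ∉ f x) (hfc : ∀ x, #(f x) < succ lam)
    (hI : ∀ X : Set S, #X = succ lam → #(⋂ x ∈ X, f x : Set S) < lam) :
    ∃ (K : Type) (_ : LinearOrder K) (e : S ≃ K) (J : ℕ → Set K),
      Ctx K lam J (trf e f) := by
  have hK : #(succ lam).ord.ToType = succ lam := by simp
  obtain ⟨e⟩ : Nonempty (S ≃ (succ lam).ord.ToType) := Cardinal.eq.1 (hS.trans hK.symm)
  obtain ⟨c, hc1, hc2⟩ := ctxe_seq hcof
  have hinf : ℵ₁ < lam := by
    have h1 := ctxe_succ hcof le_rfl h0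
    rwa [succ_aleph0] at h1
  have hreg : (succ lam).IsRegular := isRegular_succ h0.le
  have hJ : ∀ n, ∃ A : Set (succ lam).ord.ToType, #A = succ (max (c n) ℵ₁) := by
    intro n
    rw [← le_mk_iff_exists_set, hK]
    exact succ_le_succ (max_le (hc1 n).le hinf.le)
  choose J hJ using hJ
  have h01 : ℵ₀ ≤ (ℵ₁ : Cardinal.{0}) := aleph0_lt_aleph_one.le
  have hbdd : ∀ A : Set (succ lam).ord.ToType, #A ≤ lam → ∃ b, ∀ a ∈ A, a < b := by
    intro A hA
    have h1 : ¬ IsCofinal A := by
      intro h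
      have h2 := Order.cof_le h
      rw [Ordinal.cof_toType, hreg.cof_ord] at h2
      exact absurd (h2.trans hA) (lt_succ lam).not_ge
    rw [not_isCofinal_iff] at h1
    exact h1
  refine ⟨(succ lam).ord.ToType, inferInstance, e, J, ?_⟩
  refine ⟨?_, hinf, hbdd, ?_, ?_, ?_, ?_, ?_, ?_, ?_, ?_⟩
  · rw [← mk_ne_zero_iff, hK]
    exact hreg.ne_zero
  · intro X hX
    by_contra h
    obtain ⟨b, hb⟩ := hbdd X (not_lt.1 h)
    obtain ⟨x, hx, hbx⟩ := hX b
    exact absurd (hb x hx) hbx.not_gt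
  · intro n
    rw [hJ]
    exact isRegular_succ (h01.trans (le_max_right _ _))
  · intro n
    rw [hJ]
    exact lt_succ_of_le (le_max_right _ _)
  · intro n
    rw [hJ]
    exact ctxe_succ hcof (h01.trans (le_max_right _ _)) (max_lt (hc1 n) hinf)
  · intro d hd
    obtain ⟨n, hn⟩ := hc2 d hd
    refine ⟨n, ?_⟩
    rw [hJ]
    exact lt_succ_of_le (hn.trans (le_max_left _ _))
  · rintro x ⟨y, hy, hyx⟩
    apply hff (e.symm x)
    rwa [← hyx, e.symm_apply_apply] at hy ⊢
  · intro x
    rw [trf, mk_image_eq e.injective]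
    exact lt_succ_iff.1 (hfc _)
  · intro Y hY
    have hX : #({x | Y ⊆ trf e f x} : Set (succ lam).ord.ToType) ≤ lam := by
      by_contra hcon
      rw [not_le] at hcon
      have h1 : #({x | Y ⊆ trf e f x} : Set (succ lam).ord.ToType) = succ lam :=
        le_antisymm ((mk_set_le _).trans hK.le) (succ_le_of_lt hcon)
      have h2 : #(e ⁻¹' {x | Y ⊆ trf e f x} : Set S) = succ lam := by
        exact (mk_preimage_equiv _ _).trans h1
      have h3 := hI _ h2
      have h4 : (e.symm '' Y) ⊆ ⋂ x ∈ (e ⁻¹' {x | Y ⊆ trf e f x} : Set S), f x := by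
        rintro _ ⟨y, hy, rfl⟩
        simp only [Set.mem_iInter]
        intro x hx
        obtain ⟨z, hz, hzy⟩ := hx hy
        rw [e.symm_apply_apply] at hz
        rw [← hzy, e.symm_apply_apply]
        exact hz
      have h5 := mk_le_mk_of_subset h4
      rw [mk_image_eq e.symm.injective, hY] at h5
      exact absurd h3 h5.not_gt
    obtain ⟨b, hb⟩ := hbdd _ hX
    exact ⟨b, fun x hbx hx => absurd (hb x hx) hbx.not_gt⟩

end Pool.Agent.Lib_MP_38e082_mm
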