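import Pool.Agent.Lib_MP_38e082_mm.Frc

/-!
# MP_38e082_lc: Martin's Maximum and free sets on successors of singulars of cofinality omega

Definitions of the side condition poset (see Blueprint.md).

* `Om`: the countable ordinals. `U K`: a universe of codes over `K` (`K` is the well order of
  type `lam^+`): points of `K`, countable ordinals, subsets of `K`, countable sequences of codes,
  functions from `K` to codes.
* a model is a countable set `M` of codes; `ext M y` is the hull `{g y : g ∈ M}`; `tr M` is the
  set of countable ordinals in `M`.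
* `W J k M`: player II wins the game which starts at round `k` with `M`.
* `Rel lam J M M'`: `M'` is a relevant extension of `M` (same `tr`).
* `Bd lam J f M x`: `x` is beyond `M`.
* `Cond`: the conditions, lists of blocks (model, optional point after the model).
-/

open Cardinal Set

namespace Pool.Agent.Lib_MP_38e082_mm

/-- the universe of codes over `K` -/
inductive U (K : Type) : Type
  | pt (x : K) : U K
  | od (a : Om) : U K
  | st (Y : Set K) : U K
  | sq (a : ℕ → U K) : U K
  | fn (g : K → U K) : U K

variable {K : Type}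

/-- code of a pair -/
def pr (a b : U K) : U K := U.sq fun n => if n = 0 then a else b

/-- the hull of `M` and the point `y` -/
def ext (M : Set (U K)) (y : K) : Set (U K) := {u | ∃ g : K → U K, U.fn g ∈ M ∧ u = g y}

/-- the countable ordinals of `M` -/
def tr (M : Set (U K)) : Set Om := {a | U.od a ∈ M}

/-- pointwise version of a binary function -/
def hat (Φ : U K → U K → U K) (a b : U K) : U K :=
  match a, b with
  | U.fn g, U.fn h => U.fn fun y => Φ (g y) (h y)
  | a, _ => a

/-- closed under all functions of `F` -/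
def Closed (F : Set (U K → U K → U K)) (M : Set (U K)) : Prop :=
  ∀ Φ ∈ F, ∀ a ∈ M, ∀ b ∈ M, Φ a b ∈ M

/-- closed under `hat` -/
def HatC (F : Set (U K → U K → U K)) : Prop := ∀ Φ ∈ F, hat Φ ∈ F

/-- schedule: every value infinitely often -/
def sch (k : ℕ) : ℕ := (Nat.unpair k).1

/-- player II wins the game from round `k` and model `M` on (greatest fixed point) -/
def W (J : ℕ → Set K) (k : ℕ) (M : Set (U K)) : Prop :=
  ∃ R : ℕ → Set (U K) → Prop, R k M ∧ ∀ k M, R k M → ∀ B : Set K, #B < #(J (sch k)) →
    ∃ y ∈ J (sch k), y ∉ B ∧ tr (ext M y) = tr M ∧ R (k + 1) (ext M y)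

/-- good models -/
def Gd (J : ℕ → Set K) (M : Set (U K)) : Prop := ∃ k, W J k M

/-- the good points of `Y` -/
def Good (J : ℕ → Set K) (M : Set (U K)) (Y : Set K) : Set K :=
  {y | y ∈ Y ∧ tr (ext M y) = tr M ∧ Gd J (ext M y)}

/-- relevant extensions -/
inductive Rel (lam : Cardinal.{0}) (J : ℕ → Set K) (M : Set (U K)) : Set (U K) → Prop
  | refl : Rel lam J M M
  | step {M' : Set (U K)} {Y : Set K} {y : K} (h : Rel lam J M M') (hY : U.st Y ∈ M')
      (hc : #Y = lam) (hy : y ∈ Y) (ht : tr (ext M' y) = tr M') (hg : Gd J (ext M' y)) :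
      Rel lam J M (ext M' y)

/-- unbounded sets -/
def Unb [LE K] (X : Set K) : Prop := ∀ b, ∃ x ∈ X, b ≤ x

/-- `x` is beyond `M` -/
def Bd [LT K] (lam : Cardinal.{0}) (J : ℕ → Set K) (f : K → Set K) (M : Set (U K)) (x : K) :
    Prop :=
  ∀ M', Rel lam J M M' → (∀ y, U.pt y ∈ M' → y < x ∧ ∀ z ∈ f y, z < x) ∧
    ∀ Y, U.st Y ∈ M' → #Y = lam → (∀ y ∈ Y, ∀ z ∈ f y, z < x) ∧
      #(Good J M' Y \ f x : Set K) = lam

open Classical in
/-- code of a countable set of codes -/
noncomputable def mc (M : Set (U K)) : U K :=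
  if h : ∃ a : ℕ → U K, Set.range a = M then U.sq h.choose else U.st ∅

open Classical in
/-- enumeration of the predecessors of a countable ordinal -/
noncomputable def en (a : Om) (n : ℕ) : Om :=
  if h : ∃ e : ℕ → Om, Set.range e = Set.Iio a then h.choose n else a

open Classical in
/-- a map which embeds the union of the `J n` into `Y` (if there is one) -/
noncomputable def lf (J : ℕ → Set K) (Y : Set K) : K → K :=
  if h : ∃ e : K → K, Set.InjOn e (⋃ n, J n) ∧ Set.MapsTo e (⋃ n, J n) Y then h.choose else id

/-- constant function -/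
def fcs (a _b : U K) : U K := U.fn fun _ => a
/-- the identity function -/
def fid (_a _b : U K) : U K := U.fn U.pt
/-- the empty set -/
def fem (_a _b : U K) : U K := U.st ∅
/-- application -/
def fap (a b : U K) : U K :=
  match a, b with
  | U.fn g, U.pt z => g z
  | a, _ => a
/-- component of a sequence -/
def fpj (n : ℕ) (a _b : U K) : U K :=
  match a with
  | U.sq s => s n
  | a => a
/-- smaller countable ordinals -/
noncomputable def fen (n : ℕ) (a _b : U K) : U K :=
  match a with
  | U.od x => U.od (en x n)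
  | a => a
/-- good points -/
def fgd (J : ℕ → Set K) (a b : U K) : U K :=
  match a, b with
  | U.sq m, U.st Y => U.st (Good J (Set.range m) Y)
  | a, _ => a
/-- difference -/
def fdf (f : K → Set K) (a b : U K) : U K :=
  match a, b with
  | U.st Z, U.pt x => U.st (Z \ f x)
  | a, _ => a
/-- hull of a model and a point -/
noncomputable def fex (a b : U K) : U K :=
  match a, b with
  | U.sq m, U.pt y => mc (ext (Set.range m) y)
  | a, _ => a
/-- embedding into a set -/
noncomputable def fli (J : ℕ → Set K) (a _b : U K) : U K :=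
  match a with
  | U.st Y => U.fn fun x => U.pt (lf J Y x)
  | a => a
open Classical in
/-- a bound from which on all points are beyond the model -/
noncomputable def fbt [LE K] [LT K] (lam : Cardinal.{0}) (J : ℕ → Set K) (f : K → Set K)
    (a _b : U K) : U K :=
  match a with
  | U.sq m => if h : ∃ b : K, ∀ x, b ≤ x → Bd lam J f (Set.range m) x then U.pt h.choose
      else U.sq m
  | a => a

/-- the list of the basic functions -/
noncomputable def bf [LE K] [LT K] (lam : Cardinal.{0}) (J : ℕ → Set K) (f : K → Set K) :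
    ℕ → U K → U K → U K
  | 0 => pr
  | 1 => fcs
  | 2 => fid
  | 3 => fem
  | 4 => fap
  | 5 => fgd J
  | 6 => fdf f
  | 7 => fex
  | 8 => fli J
  | 9 => fbt lam J f
  | n + 10 => if n % 2 = 0 then fpj (n / 2) else fen (n / 2)

/-- the basic functions and their pointwise versions -/
noncomputable def BF [LE K] [LT K] (lam : Cardinal.{0}) (J : ℕ → Set K) (f : K → Set K) :
    Set (U K → U K → U K) :=
  Set.range fun p : ℕ × ℕ => hat^[p.2] (bf lam J f p.1)

/-- models -/
structure Mod [LE K] [LT K] (lam : Cardinal.{0}) (J : ℕ → Set K) (f : K → Set K)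
    (M : Set (U K)) : Prop where
  ct : M.Countable
  ne : M.Nonempty
  cl : Closed (BF lam J f) M
  gd : Gd J M

/-- blocks: a model and possibly a point beyond it -/
abbrev Blk (K : Type) : Type := Set (U K) × Option K

/-- the points of a list of blocks -/
def sp (l : List (Blk K)) : Set K := {x | ∃ b ∈ l, b.2 = some x}

/-- `b` is known to the model of `c` -/
def Lk (b c : Blk K) : Prop := mc b.1 ∈ c.1 ∧ ∀ x, b.2 = some x → U.pt x ∈ c.1

/-- valid lists of blocks -/
structure Val [LE K] [LT K] (lam : Cardinal.{0}) (J : ℕ → Set K) (f : K → Set K)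
    (l : List (Blk K)) : Prop where
  md : ∀ b ∈ l, Mod lam J f b.1
  ch : l.IsChain Lk
  bd : ∀ b ∈ l, ∀ x, b.2 = some x → Bd lam J f b.1 x

/-- free sets -/
def Fre (f : K → Set K) (s : Set K) : Prop := ∀ x ∈ s, ∀ y ∈ s, x ≠ y → y ∉ f x

/-- the points whose image avoids `s` -/
def Av (f : K → Set K) (s : Set K) : Set K := {x | ∀ y ∈ s, y ∉ f x}

/-- the conditions -/
structure Cond [LE K] [LT K] (lam : Cardinal.{0}) (J : ℕ → Set K) (f : K → Set K) : Type where
  l : List (Blk K)
  va : Val lam J f l
  fr : Fre f (sp l)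
  gd : Unb (Av f (sp l))

/-- the order of the conditions: smaller = stronger -/
def CLe [LE K] [LT K] {lam : Cardinal.{0}} {J : ℕ → Set K} {f : K → Set K}
    (q p : Cond lam J f) : Prop :=
  sp p.l ⊆ sp q.l ∧ ∀ b ∈ p.l, ∃ c ∈ q.l, Rel lam J b.1 c.1

/-- the standing assumptions -/
structure Ctx (K : Type) [LinearOrder K] (lam : Cardinal.{0}) (J : ℕ → Set K)
    (f : K → Set K) : Prop where
  ne : Nonempty K
  inf : ℵ₁ < lam
  bdd : ∀ A : Set K, #A ≤ lam → ∃ b, ∀ a ∈ A, a < b
  unb : ∀ X : Set K, Unb X → lam < #X
  jr : ∀ n, (#(J n)).IsRegular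
  j1 : ∀ n, ℵ₁ < #(J n)
  jl : ∀ n, #(J n) < lam
  jc : ∀ c < lam, ∃ n, c < #(J n)
  ff : ∀ x, x ∉ f x
  fc : ∀ x, #(f x) ≤ lam
  hh : ∀ Y : Set K, #Y = lam → ∃ b, ∀ x, b ≤ x → ¬ Y ⊆ f x

/-! ### codes of conditions and trees -/

/-- code of an optional point -/
def oc (o : Option K) : U K :=
  match o with
  | none => U.st ∅
  | some x => U.pt x

/-- code of a list of blocks -/
noncomputable def cd : List (Blk K) → U K
  | [] => U.st ∅
  | b :: l => pr (pr (mc b.1) (oc b.2)) (cd l)

/-- `k` more points can be put in front of `z`, unboundedly often at each step -/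
def Full [LE K] (Φ : List K → Prop) : ℕ → List K → Prop
  | 0, z => Φ z
  | k + 1, z => Unb {x | Full Φ k (x :: z)}

open Classical in
/-- a subset of size `lam` -/
noncomputable def pick (lam : Cardinal.{0}) (X : Set K) : Set K :=
  if h : ∃ Y ⊆ X, #Y = lam then h.choose else ∅

open Classical in
/-- a bound -/
noncomputable def bnd [LT K] [Nonempty K] (X : Set K) : K :=
  if h : ∃ b, ∀ x ∈ X, x < b then h.choose else Classical.arbitrary K

open Classical in
/-- code of the tree of depth `k` above `z` -/
noncomputable def Tc [LE K] [LT K] [Nonempty K] (lam : Cardinal.{0}) (Φ : List K → Prop)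
    (R : List K → U K) : ℕ → List K → U K
  | 0, z => R z
  | k + 1, z => pr (if Full Φ (k + 1) z then U.st (pick lam {x | Full Φ k (x :: z)})
      else U.pt (bnd {x | Full Φ k (x :: z)})) (U.fn fun x => Tc lam Φ R k (x :: z))

end Pool.Agent.Lib_MP_38e082_mm
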