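import Pool.Agent.Lib_MP_38e082_mm.Om1

/-!
# EXT: closed sets of codes and hulls

`hF : HatC F`, `Closed F M`: if `a = g y`, `b = h y` with `fn g, fn h ∈ M` then
`hat Φ (fn g) (fn h) = fn (fun y => Φ (g y) (h y)) ∈ M`, so `Φ a b ∈ ext M y`.
The closure lemmas: apply `hM (bf lam J f n) (bf_mem n)` for the right `n` and unfold (`bf`, `fap`,
`fpj`, ...; `n + 10` with `n = 2 m` is `fpj m`, `n = 2 m + 1` is `fen m`). For a function of one
argument use the same element twice. `mc N = sq a` with `range a = N` for countable nonempty `N`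
(`mc_spec`, from `Set.Countable.exists_eq_range`). `cl_fst`: `pr a b = sq s` with `s 0 = a`,
`s 1 = b`. `cl_comp`: `fn (fun _ => fn g)`, `fn (fun x => pt (e x))` are in `M`, `hat fap` of them is
`fn (fun x => g (e x))`. `sub_ext`: `a = (fun _ => a) y`. `pt_ext`: `pt y = (U.pt) y`.
-/

open Cardinal Set

namespace Pool.Agent.Lib_MP_38e082_mm

variable {K : Type} [LinearOrder K] {lam : Cardinal.{0}} {J : ℕ → Set K} {f : K → Set K}

theorem BF_countable : (BF lam J f).Countable := Set.countable_range _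

theorem BF_hat : HatC (BF lam J f) := by
  rintro _ ⟨p, rfl⟩
  exact ⟨(p.1, p.2 + 1), Function.iterate_succ_apply' _ _ _⟩

theorem bf_mem (n : ℕ) : bf lam J f n ∈ BF lam J f := ⟨(n, 0), rfl⟩

theorem Closed.mono {F G : Set (U K → U K → U K)} (h : F ⊆ G) {M : Set (U K)} (hM : Closed G M) :
    Closed F M := fun Φ hΦ => hM Φ (h hΦ)

theorem ext_closed {F : Set (U K → U K → U K)} (hF : HatC F) {M : Set (U K)} (hM : Closed F M)
    (y : K) : Closed F (ext M y) := by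
  rintro Φ hΦ _ ⟨g, hg, rfl⟩ _ ⟨h, hh, rfl⟩
  exact ⟨fun y => Φ (g y) (h y), hM _ (hF Φ hΦ) _ hg _ hh, rfl⟩

theorem ext_mono {M N : Set (U K)} (h : M ⊆ N) (y : K) : ext M y ⊆ ext N y := by
  rintro _ ⟨g, hg, rfl⟩
  exact ⟨g, h hg, rfl⟩

theorem ext_countable {M : Set (U K)} (h : M.Countable) (y : K) : (ext M y).Countable := by
  have h1 : ext M y ⊆ (fun u : U K => match u with
    | U.fn g => g y
    | u => u) '' M := by
    rintro _ ⟨g, hg, rfl⟩
    exact ⟨_, hg, rfl⟩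
  exact (h.image _).mono h1

theorem mc_spec {M : Set (U K)} (hc : M.Countable) (hn : M.Nonempty) :
    ∃ a : ℕ → U K, Set.range a = M ∧ mc M = U.sq a := by
  have h : ∃ a : ℕ → U K, Set.range a = M := by
    obtain ⟨a, ha⟩ := hc.exists_eq_range hn
    exact ⟨a, ha.symm⟩
  refine ⟨h.choose, h.choose_spec, ?_⟩
  unfold mc
  rw [dif_pos h]

theorem mc_inj {M N : Set (U K)} (hc : M.Countable) (hn : M.Nonempty) (hc' : N.Countable)
    (hn' : N.Nonempty) (h : mc M = mc N) : M = N := by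
  obtain ⟨a, ha, ha'⟩ := mc_spec hc hn
  obtain ⟨b, hb, hb'⟩ := mc_spec hc' hn'
  rw [ha', hb'] at h
  rw [← ha, ← hb, U.sq.inj h]

section cl

variable {M : Set (U K)} (hM : Closed (BF lam J f) M)
include hM

theorem cl_pr {a b : U K} (ha : a ∈ M) (hb : b ∈ M) : pr a b ∈ M :=
  hM _ (bf_mem (lam := lam) (J := J) (f := f) 0) a ha b hb

theorem cl_sq {a : ℕ → U K} (h : U.sq a ∈ M) (n : ℕ) : a n ∈ M := by
  have h1 := hM _ (bf_mem (lam := lam) (J := J) (f := f) (2 * n + 10)) _ h _ h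
  have h2 : bf lam J f (2 * n + 10) = fpj n := by
    have : (2 * n) % 2 = 0 := by omega
    have h3 : (2 * n) / 2 = n := by omega
    show (if (2 * n) % 2 = 0 then fpj ((2 * n) / 2) else fen ((2 * n) / 2)) = _
    rw [if_pos this, h3]
  rw [h2] at h1
  exact h1

theorem cl_fst {a b : U K} (h : pr a b ∈ M) : a ∈ M := by
  have := cl_sq hM h 0
  simpa using this

theorem cl_snd {a b : U K} (h : pr a b ∈ M) : b ∈ M := by
  have := cl_sq hM h 1
  simpa using this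

theorem cl_mc {N : Set (U K)} (h : mc N ∈ M) (hc : N.Countable) (hn : N.Nonempty) : N ⊆ M := by
  obtain ⟨a, ha, ha'⟩ := mc_spec hc hn
  rw [ha'] at h
  rw [← ha]
  rintro _ ⟨n, rfl⟩
  exact cl_sq hM h n

theorem cl_cs {a : U K} (h : a ∈ M) : U.fn (fun _ => a) ∈ M :=
  hM _ (bf_mem (lam := lam) (J := J) (f := f) 1) a h a h

theorem cl_id (hne : M.Nonempty) : U.fn U.pt ∈ M := by
  obtain ⟨a, h⟩ := hne
  exact hM _ (bf_mem (lam := lam) (J := J) (f := f) 2) a h a h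

theorem cl_em (hne : M.Nonempty) : U.st ∅ ∈ M := by
  obtain ⟨a, h⟩ := hne
  exact hM _ (bf_mem (lam := lam) (J := J) (f := f) 3) a h a h

theorem cl_ap {g : K → U K} {z : K} (h : U.fn g ∈ M) (hz : U.pt z ∈ M) : g z ∈ M :=
  hM _ (bf_mem (lam := lam) (J := J) (f := f) 4) _ h _ hz

theorem cl_gd {N : Set (U K)} {Y : Set K} (h : mc N ∈ M) (hc : N.Countable) (hn : N.Nonempty)
    (hY : U.st Y ∈ M) : U.st (Good J N Y) ∈ M := by
  obtain ⟨a, ha, ha'⟩ := mc_spec hc hn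
  rw [ha'] at h
  rw [← ha]
  exact hM _ (bf_mem (lam := lam) (J := J) (f := f) 5) _ h _ hY

theorem cl_df {Z : Set K} {x : K} (h : U.st Z ∈ M) (hx : U.pt x ∈ M) : U.st (Z \ f x) ∈ M :=
  hM _ (bf_mem (lam := lam) (J := J) (f := f) 6) _ h _ hx

theorem cl_ex {N : Set (U K)} {y : K} (h : mc N ∈ M) (hc : N.Countable) (hn : N.Nonempty)
    (hy : U.pt y ∈ M) : mc (ext N y) ∈ M := by
  obtain ⟨a, ha, ha'⟩ := mc_spec hc hn
  rw [ha'] at h
  rw [← ha]
  exact hM _ (bf_mem (lam := lam) (J := J) (f := f) 7) _ h _ hy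

theorem cl_bt {N : Set (U K)} (h : mc N ∈ M) (hc : N.Countable) (hn : N.Nonempty)
    (hb : ∃ b, ∀ x, b ≤ x → Bd lam J f N x) :
    ∃ b, U.pt b ∈ M ∧ ∀ x, b ≤ x → Bd lam J f N x := by
  obtain ⟨a, ha, ha'⟩ := mc_spec hc hn
  rw [ha'] at h
  rw [← ha] at hb ⊢
  refine ⟨hb.choose, ?_, hb.choose_spec⟩
  have h1 := hM _ (bf_mem (lam := lam) (J := J) (f := f) 9) _ h _ h
  have h2 : bf lam J f 9 (U.sq a) (U.sq a) = U.pt hb.choose := by
    show fbt lam J f (U.sq a) (U.sq a) = _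
    simp only [fbt]
    rw [dif_pos hb]
  rw [h2] at h1
  exact h1

theorem cl_od {a b : Om} (h : U.od a ∈ M) (hb : b < a) : U.od b ∈ M := by
  obtain ⟨n, hn⟩ := en_spec a b hb
  have h1 := hM _ (bf_mem (lam := lam) (J := J) (f := f) (2 * n + 1 + 10)) _ h _ h
  have h2 : bf lam J f (2 * n + 1 + 10) = fen n := by
    have : ¬ (2 * n + 1) % 2 = 0 := by omega
    have h3 : (2 * n + 1) / 2 = n := by omega
    show (if (2 * n + 1) % 2 = 0 then fpj ((2 * n + 1) / 2) else fen ((2 * n + 1) / 2)) = _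
    rw [if_neg this, h3]
  rw [h2] at h1
  have h3 : fen n (U.od a : U K) (U.od a) = U.od (en a n) := rfl
  rw [h3, hn] at h1
  exact h1

theorem cl_lf {Y : Set K} (h : U.st Y ∈ M) : U.fn (fun x => U.pt (lf J Y x)) ∈ M :=
  hM _ (bf_mem (lam := lam) (J := J) (f := f) 8) _ h _ h

theorem cl_comp {g : K → U K} {e : K → K} (h : U.fn g ∈ M)
    (h' : U.fn (fun x => U.pt (e x)) ∈ M) : U.fn (fun x => g (e x)) ∈ M := by
  have h1 := cl_cs hM h
  exact hM _ (BF_hat _ (bf_mem (lam := lam) (J := J) (f := f) 4)) _ h1 _ h'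

theorem sub_ext (y : K) : M ⊆ ext M y := fun a ha => ⟨fun _ => a, cl_cs hM ha, rfl⟩

theorem pt_ext (hne : M.Nonempty) (y : K) : U.pt y ∈ ext M y := ⟨U.pt, cl_id hM hne, rfl⟩

end cl

end Pool.Agent.Lib_MP_38e082_mm
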