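import Pool.Agent.Lib_MP_38e082_mm.Gen1

/-!
# GEN2: the free set of a sufficiently generic filter

## Proof
`free_of_filter`: `A = {x | ∃ p ∈ G, x ∈ sp p.l}` is free (two members of `A` are in one condition of `G`
by directedness, `sp p.l ⊆ sp r.l` for `r ≤ p`). `A` is uncountable: otherwise, choosing `p_a ∈ G ∩ DD a`
with `x_a, b_a, c_a` for each `a : Om`, there is `x` with `{a | x_a = x}` uncountable (`om_card`). Let
`a0` be in it, `c = c_(a0)`; `tr c.1` is countable, so there is `a` with `x_a = x`, `a ∉ tr c.1`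
(`om_unc`). Let `r ∈ G` be below `p_(a0)` and `p_a`, `c', b' ∈ r.l` with `Rel c.1 c'.1`,
`Rel b_a.1 b'.1`; `a ∈ tr b'.1`, `a ∉ tr c'.1` (`Rel.tr_eq`). By `val_pw` for `r` (comparable blocks:
`c' = b'`, `b'.1 ⊆ c'.1` or `c'.1 ⊆ b'.1`), so `c'.1 ⊆ b'.1`, hence `pt x ∈ c.1 ⊆ c'.1 ⊆ b'.1`, but
`Bd b_a.1 x` and `Rel b_a.1 b'.1` give `x < x`. Finally take a subset of size `ℵ₁`
(`Cardinal.le_mk_iff_exists_subset`).
-/

open Cardinal Set

namespace Pool.Agent.Lib_MP_38e082_mm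

variable {K : Type} [LinearOrder K] {lam : Cardinal.{0}} {J : ℕ → Set K} {f : K → Set K}

private theorem gen_free {G : Set (Cond lam J f)} (hG : Filt G) :
    Fre f {x | ∃ p ∈ G, x ∈ sp p.l} := by
  rintro x ⟨p, hp, hx⟩ y ⟨q, hq, hy⟩ hxy
  obtain ⟨r, hr, hrp, hrq⟩ := hG.dir p hp q hq
  exact r.fr x (hrp.1 hx) y (hrq.1 hy) hxy

omit [LinearOrder K] in
private theorem gen_tr_countable {M : Set (U K)} (h : M.Countable) : (tr M).Countable := by
  have : tr M = U.od ⁻¹' M := rfl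
  rw [this]
  exact h.preimage (fun a b hab => by injection hab)

private theorem gen_unc {G : Set (Cond lam J f)} (hG : Filt G)
    (h : ∀ a, ∃ p ∈ G, p ∈ DD lam J f a) : ¬ {x | ∃ p ∈ G, x ∈ sp p.l}.Countable := by
  intro hA
  choose p hpG hpD using h
  choose x hx b hb c hcc hab hbd hxc using hpD
  have hfib : ∃ y ∈ {x | ∃ p ∈ G, x ∈ sp p.l}, ¬ {a | x a = y}.Countable := by
    by_contra hcon
    push Not at hcon
    have hun : (Set.univ : Set Om) ⊆ ⋃ y ∈ {x | ∃ p ∈ G, x ∈ sp p.l}, {a | x a = y} := by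
      intro a _
      refine Set.mem_iUnion₂.2 ⟨x a, ⟨p a, hpG a, hx a⟩, rfl⟩
    have hct : (Set.univ : Set Om).Countable := (hA.biUnion hcon).mono hun
    have h1 : #Om ≤ ℵ₀ := by
      rw [← Cardinal.mk_univ]
      exact hct.le_aleph0
    rw [om_card] at h1
    exact absurd h1 (not_le.2 Cardinal.aleph0_lt_aleph_one)
  obtain ⟨y, -, hy⟩ := hfib
  have hne : {a | x a = y}.Nonempty := by
    by_contra hcon
    rw [Set.not_nonempty_iff_eq_empty] at hcon
    rw [hcon] at hy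
    exact hy Set.countable_empty
  obtain ⟨a0, ha0⟩ := hne
  have hmc : Mod lam J f (c a0).1 := (p a0).va.md _ (hcc a0)
  obtain ⟨a, ha, hac⟩ := om_unc _ _ hy (gen_tr_countable hmc.ct)
  obtain ⟨r, hr, hr0, hra⟩ := hG.dir _ (hpG a0) _ (hpG a)
  obtain ⟨c', hc', hrelc⟩ := hr0.2 _ (hcc a0)
  obtain ⟨b', hb', hrelb⟩ := hra.2 _ (hb a)
  have hab' : a ∈ tr b'.1 := by
    rw [Rel.tr_eq hrelb]
    exact hab a
  have hac' : a ∉ tr c'.1 := by
    rw [Rel.tr_eq hrelc]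
    exact hac
  have hsub : c'.1 ⊆ b'.1 := by
    have hpw := val_pw r.va
    by_cases hcb : c' = b'
    · rw [hcb]
    · have hor : c'.1 ⊆ b'.1 ∨ b'.1 ⊆ c'.1 := by
        have hpw2 : r.l.Pairwise fun b c => b.1 ⊆ c.1 ∨ c.1 ⊆ b.1 :=
          hpw.imp (fun h => Or.inl h.2)
        haveI : Std.Symm fun b c : Blk K => b.1 ⊆ c.1 ∨ c.1 ⊆ b.1 := ⟨fun _ _ h => Or.symm h⟩
        exact hpw2.forall hc' hb' hcb
      rcases hor with h1 | h1
      · exact h1
      · exact absurd (h1 hab') hac'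
  have hx0 : U.pt (x a0) ∈ b'.1 := hsub (Rel.sub hrelc hmc (hxc a0))
  have hxx : x a = x a0 := by
    have h1 : x a = y := ha
    have h2 : x a0 = y := ha0
    rw [h1, h2]
  have := ((hbd a) b'.1 hrelb).1 (x a0) hx0
  rw [hxx] at this
  exact lt_irrefl _ this.1

theorem free_of_filter (hc : Ctx K lam J f) {G : Set (Cond lam J f)} (hG : Filt G)
    (h : ∀ a, ∃ p ∈ G, p ∈ DD lam J f a) : ∃ H : Set K, #H = ℵ₁ ∧ Fre f H := by
  have h1 : ℵ₁ ≤ #{x | ∃ p ∈ G, x ∈ sp p.l} := by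
    have h2 : ℵ₀ < #{x | ∃ p ∈ G, x ∈ sp p.l} := by
      by_contra hcon
      exact gen_unc hG h (Cardinal.le_aleph0_iff_set_countable.1 (not_lt.1 hcon))
    rw [← Cardinal.succ_aleph0]
    exact Order.succ_le_of_lt h2
  obtain ⟨H, hH, hcard⟩ := Cardinal.le_mk_iff_exists_subset.1 h1
  exact ⟨H, hcard, fun x hx y hy hxy => gen_free hG x (hH hx) y (hH hy) hxy⟩

end Pool.Agent.Lib_MP_38e082_mm
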