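import Pool.Agent.Lib_MP_38e082_mm.Ssp
import Pool.Agent.Lib_MP_38e082_mm.Gen
import Pool.Agent.Lib_MP_38e082_mm.CtxE

/-!
# FIN: the final theorem

`P = Cond lam J (trf e f)`, `ssp_cond`, `den_DD`, `free_of_filter`, transfer the free set by `e.symm`.
-/

open Cardinal Set Order

namespace Pool.Agent.Lib_MP_38e082_mm

/-- every set mapping as in the problem (cofinality omega) has a free set of size `ℵ₁` after
meeting `ℵ₁` dense sets of a poset which preserves stationary subsets of `Om` -/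
theorem final {lam : Cardinal.{0}} (h0 : ℵ₀ < lam) (hcof : lam.ord.cof = ℵ₀) {S : Type}
    (hS : #S = succ lam) {f : S → Set S} (hff : ∀ x, x ∉ f x) (hfc : ∀ x, #(f x) < succ lam)
    (hI : ∀ X : Set S, #X = succ lam → #(⋂ x ∈ X, f x : Set S) < lam) :
    ∃ (P : Type) (_ : Preorder P), Nonempty P ∧ SSP P ∧ ∃ D : Om → Set P, (∀ a, Den (D a)) ∧
      ∀ G : Set P, Filt G → (∀ a, ∃ p ∈ G, p ∈ D a) →
        ∃ H : Set S, #H = ℵ₁ ∧ ∀ x ∈ H, ∀ y ∈ H, x ≠ y → y ∉ f x := by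
  obtain ⟨K, _, e, J, hc⟩ := ctx_exists h0 hcof hS hff hfc hI
  refine ⟨Cond lam J (trf e f), inferInstance, cond_nonempty hc, ssp_cond hc,
    DD lam J (trf e f), den_DD hc, ?_⟩
  intro G hG hD
  obtain ⟨H, hH, hfr⟩ := free_of_filter hc hG hD
  refine ⟨e.symm '' H, ?_, ?_⟩
  · rw [← hH]
    exact Cardinal.mk_image_eq e.symm.injective
  · rintro _ ⟨x, hx, rfl⟩ _ ⟨y, hy, rfl⟩ hxy hyf
    have hne : x ≠ y := fun h => hxy (by rw [h])
    exact hfr x hx y hy hne ⟨e.symm y, hyf, by simp⟩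

end Pool.Agent.Lib_MP_38e082_mm
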