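import Mathlib

/-!
# Stationary sets of countable ordinals, names of clubs, Martin's Maximum

These are the definitions used in the statement of the hand-in.

`ClubName C`: the description of a name of a closed unbounded subset of `Om` by the sets
`C a = {q | q forces that a belongs to the club}`. If a real name of a club (of the ordinal `Om` of
the ground model) is given, these sets satisfy `op`, `un`, `cl`; conversely, the sets
`C a` of a `ClubName` give the name `{(a, q) | q ∈ C a}`, which is forced to be closed and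
unbounded in `Om`. So `SSP P` says exactly that every stationary subset of `Om` remains stationary
after forcing with `P` (in particular `Om` is not collapsed: a cofinal sequence of type omega would
give a club name which avoids the limit ordinals). Hence `MM` is Martin's Maximum.
-/

open Cardinal Set

namespace Pool.Agent.Lib_MP_38e082_mm

/-- the countable ordinals -/
abbrev Om : Type := (Ordinal.omega 1).ToType

/-- closed unbounded sets of countable ordinals -/
def IsClub (C : Set Om) : Prop :=
  (∀ a, ∃ b ∈ C, a < b) ∧ ∀ d : Om, (∃ a, a < d) → (∀ a < d, ∃ b ∈ C, a < b ∧ b < d) → d ∈ C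

/-- stationary sets of countable ordinals -/
def Stat (S : Set Om) : Prop := ∀ C, IsClub C → ∃ d ∈ S, d ∈ C

/-- names for closed unbounded subsets of `Om`: `C a` is the set of the conditions which force
that `a` is in the club -/
structure ClubName {P : Type} [Preorder P] (C : Om → Set P) : Prop where
  op : ∀ a, ∀ q ∈ C a, ∀ r ≤ q, r ∈ C a
  un : ∀ (a : Om) (p : P), ∃ q ≤ p, ∃ b, a < b ∧ q ∈ C b
  cl : ∀ d : Om, (∃ a, a < d) → ∀ p : P,
    (∀ a < d, ∀ q ≤ p, ∃ r ≤ q, ∃ b, a < b ∧ b < d ∧ r ∈ C b) → p ∈ C d

/-- `P` preserves stationary subsets of `Om` -/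
def SSP (P : Type) [Preorder P] : Prop :=
  ∀ S, Stat S → ∀ C : Om → Set P, ClubName C → ∀ p : P, ∃ q ≤ p, ∃ d ∈ S, q ∈ C d

/-- dense sets -/
def Den {P : Type} [Preorder P] (D : Set P) : Prop := ∀ p, ∃ q ≤ p, q ∈ D

/-- `G` is a filter -/
structure Filt {P : Type} [Preorder P] (G : Set P) : Prop where
  ne : G.Nonempty
  up : ∀ p ∈ G, ∀ q, p ≤ q → q ∈ G
  dir : ∀ p ∈ G, ∀ q ∈ G, ∃ r ∈ G, r ≤ p ∧ r ≤ q

/-- Martin's Maximum -/
def MM : Prop :=
  ∀ (P : Type) [Preorder P] [Nonempty P], SSP P → ∀ D : Om → Set P, (∀ a, Den (D a)) →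
    ∃ G : Set P, Filt G ∧ ∀ a, ∃ p ∈ G, p ∈ D a

end Pool.Agent.Lib_MP_38e082_mm
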