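import Pool.Agent.Lib_MP_38e082_mm.Ext

/-!
# STRAT: a winning strategy for player I if II does not win

## Proof of `strat`
Let `Lose : ℕ → Set (U K) → Prop` be the inductive predicate: `Lose k M` if there is `B` with
`#B < #(J (sch k))` and for all `y ∈ J (sch k)`, `y ∉ B`: `tr (ext M y) ≠ tr M` or
`Lose (k+1) (ext M y)`. `¬ Lose` satisfies the defining property of `W` (take `R k M := ¬ Lose k M`), so
`¬ W J k M → Lose k M`. Induction on `Lose` gives the strategy: `σ [] = B`, `σ (y :: l) = σ_y l`, where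
`σ_y` is the strategy of `Lose (k+1) (ext M y)` (by choice; `∅` if there is none, `J n` is infinite).
For a play `b`: if `tr (ext M (b 0)) ≠ tr M` take `i = 1`, otherwise use `σ_(b 0)` and the play
`fun n => b (n + 1)` (`exts M b (i+1) = exts (ext M (b 0)) (fun n => b (n+1)) i`,
`hist b (i+1) = b 0 :: hist (fun n => b (n+1)) i`).
-/

open Cardinal Set

namespace Pool.Agent.Lib_MP_38e082_mm

variable {K : Type}

/-- iterated hulls -/
def exts (M : Set (U K)) (b : ℕ → K) : ℕ → Set (U K)
  | 0 => M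
  | i + 1 => ext (exts M b i) (b i)

/-- the first `i` moves -/
def hist (b : ℕ → K) (i : ℕ) : List K := (List.range i).map b

private theorem strat_exts (M : Set (U K)) (b : ℕ → K) (i : ℕ) :
    exts M b (i + 1) = exts (ext M (b 0)) (fun n => b (n + 1)) i := by
  induction i with
  | zero => rfl
  | succ i ih =>
    show ext (exts M b (i + 1)) (b (i + 1)) = ext _ (b (i + 1))
    rw [ih]

private theorem strat_hist (b : ℕ → K) (i : ℕ) :
    hist b (i + 1) = b 0 :: hist (fun n => b (n + 1)) i := by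
  unfold hist
  rw [List.range_succ_eq_map, List.map_cons, List.map_map]
  rfl

/-- player I wins (inductive version) -/
inductive StratLose (J : ℕ → Set K) : ℕ → Set (U K) → Prop
  | mk (k : ℕ) (M : Set (U K)) (B : Set K) (hB : #B < #(J (sch k)))
      (h : ∀ y, y ∈ J (sch k) → y ∉ B → tr (ext M y) = tr M → StratLose J (k + 1) (ext M y)) :
      StratLose J k M

private theorem strat_lose (J : ℕ → Set K) (k : ℕ) (M : Set (U K)) (h : ¬ W J k M) :
    StratLose J k M := by
  by_contra hl
  refine h ⟨fun k M => ¬ StratLose J k M, hl, fun k M hk B hB => ?_⟩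
  by_contra hc
  exact hk (StratLose.mk k M B hB fun y hy hyB ht =>
    by_contra fun hn => hc ⟨y, hy, hyB, ht, hn⟩)

private theorem strat_of_lose (J : ℕ → Set K) (hJ : ∀ n, ℵ₀ ≤ #(J n)) (k : ℕ) (M : Set (U K))
    (h : StratLose J k M) : ∃ σ : List K → Set K,
      (∀ l, #(σ l) < #(J (sch (k + l.length)))) ∧
      ∀ b : ℕ → K, (∀ i, b i ∈ J (sch (k + i)) ∧ b i ∉ σ (hist b i)) →
        ∃ i, tr (exts M b i) ≠ tr M := by
  induction h with
  | mk k M B hB _ ih =>
    have h1 : ∀ y : K, ∃ σ : List K → Set K,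
        (∀ l, #(σ l) < #(J (sch (k + 1 + l.length)))) ∧
        (y ∈ J (sch k) → y ∉ B → tr (ext M y) = tr M →
        ∀ b : ℕ → K, (∀ i, b i ∈ J (sch (k + 1 + i)) ∧ b i ∉ σ (hist b i)) →
        ∃ i, tr (exts (ext M y) b i) ≠ tr (ext M y)) := by
      intro y
      by_cases hy : y ∈ J (sch k) ∧ y ∉ B ∧ tr (ext M y) = tr M
      · obtain ⟨σ, h1, h2⟩ := ih y hy.1 hy.2.1 hy.2.2
        exact ⟨σ, h1, fun _ _ _ => h2⟩
      · refine ⟨fun _ => ∅, fun l => ?_, fun h1 h2 h3 => absurd ⟨h1, h2, h3⟩ hy⟩
        rw [Cardinal.mk_eq_zero]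
        exact lt_of_lt_of_le Cardinal.aleph0_pos (hJ _)
    choose σ' hσ1 hσ2 using h1
    refine ⟨fun l => match l with
      | [] => B
      | y :: l => σ' y l, fun l => ?_, fun b hb => ?_⟩
    · cases l with
      | nil => exact hB
      | cons y l =>
        have := hσ1 y l
        rw [show k + (y :: l).length = k + 1 + l.length by
          rw [List.length_cons]; omega]
        exact this
    · by_cases ht : tr (ext M (b 0)) = tr M
      · have h0 := hb 0
        obtain ⟨i, hi⟩ := hσ2 (b 0) h0.1 h0.2 ht (fun n => b (n + 1)) (fun i => by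
          have h1 := hb (i + 1)
          refine ⟨?_, ?_⟩
          · rw [show k + 1 + i = k + (i + 1) by omega]
            exact h1.1
          · have h2 := h1.2
            rw [strat_hist] at h2
            exact h2)
        refine ⟨i + 1, ?_⟩
        rw [strat_exts, ← ht]
        exact hi
      · exact ⟨1, ht⟩

theorem strat (J : ℕ → Set K) (hJ : ∀ n, ℵ₀ ≤ #(J n)) (k : ℕ) (M : Set (U K))
    (h : ¬ W J k M) : ∃ σ : List K → Set K, (∀ l, #(σ l) < #(J (sch (k + l.length)))) ∧
      ∀ b : ℕ → K, (∀ i, b i ∈ J (sch (k + i)) ∧ b i ∉ σ (hist b i)) →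
        ∃ i, tr (exts M b i) ≠ tr M := by
  exact strat_of_lose J hJ k M (strat_lose J k M h)

end Pool.Agent.Lib_MP_38e082_mm
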