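import Pool.Agent.Lib_MP_38e082_mm.Hull
import Pool.Agent.Lib_MP_38e082_mm.Strat

/-!
# MODEL: models won by player II whose trace is in a given stationary set

## Proof
`M_d := Hull F (HA A d)`. Let `C` be the club of `hull_club`. Suppose that for all `d ∈ S ∩ C` not
`W J 0 M_d`. Choose `σ_d` (from `strat`). Build `b : ℕ → K` with `b i ∈ J (sch i)`,
`b i ∉ ⋃ d ∈ S ∩ C, σ_d (hist b i)`: possible as the union of at most `ℵ₁` sets of size `< #(J n)` has
size `< #(J n)` (`jr`, `j1`, `om_card`; strong recursion: `b i` depends on `hist b i`, e.g. build the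
lists first). Let `C'` be the club of `hull_club` for `A ∪ {pt (b i) | i}`; choose
`d ∈ S ∩ C ∩ C'` (`club_inter`). By induction `exts M_d b i ⊆ Hull F (HA (A ∪ {pt (b i)}) d) =: N`
(`fn g ∈ N`, `pt y ∈ N` give `g y ∈ N`: `cl_ap`), and
`Iio d = tr M_d ⊆ tr (exts M_d b i) ⊆ tr N = Iio d` (`sub_ext`, `ext_closed`), contradiction with
`strat`. Take `M = M_d` for a `d ∈ S ∩ C` with `W J 0 M_d`.
-/

open Cardinal Set

namespace Pool.Agent.Lib_MP_38e082_mm

variable {K : Type}

theorem exists_model [LinearOrder K] {lam : Cardinal.{0}} {J : ℕ → Set K} {f : K → Set K}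
    (hc : Ctx K lam J f) {F : Set (U K → U K → U K)} (hF : F.Countable)
    (hB : BF lam J f ⊆ F) (hH : HatC F) {A : Set (U K)} (hA : A.Countable)
    (hne : A.Nonempty) {S : Set Om} (hS : Stat S) :
    ∃ (M : Set (U K)) (d : Om), A ⊆ M ∧ M.Countable ∧ Closed F M ∧ W J 0 M ∧ d ∈ S ∧
      tr M = Set.Iio d := by
  classical
  have hAs : ∀ (A : Set (U K)) (d : Om), A ⊆ Hull F (HA A d) := fun A d =>
    (Set.subset_union_left).trans (sub_hull F (HA A d))
  have hAc : ∀ d, (HA A d).Countable := by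
    intro d
    refine hA.union ?_
    refine ((om_ini d).image (fun a => (U.od a : U K))).mono ?_
    rintro u ⟨a, ha, rfl⟩
    exact ⟨a, ha, rfl⟩
  obtain ⟨C, hC, hCt⟩ := hull_club (K := K) hF hA
  by_cases hex : ∃ d ∈ S, d ∈ C ∧ W J 0 (Hull F (HA A d))
  · obtain ⟨d, hdS, hdC, hW⟩ := hex
    exact ⟨Hull F (HA A d), d, hAs A d, hull_countable hF (hAc d), hull_closed _ _, hW, hdS,
      hCt d hdC⟩
  exfalso
  have hJ : ∀ n, ℵ₀ ≤ #(J n) := fun n => (hc.jr n).aleph0_le
  have hst : ∀ d : Om, ∃ σ : List K → Set K, (∀ l, #(σ l) < #(J (sch l.length))) ∧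
      (d ∈ S → d ∈ C → ∀ b : ℕ → K, (∀ i, b i ∈ J (sch i) ∧ b i ∉ σ (hist b i)) →
        ∃ i, tr (exts (Hull F (HA A d)) b i) ≠ tr (Hull F (HA A d))) := by
    intro d
    by_cases hd : d ∈ S ∧ d ∈ C
    · have hn : ¬ W J 0 (Hull F (HA A d)) := fun h => hex ⟨d, hd.1, hd.2, h⟩
      obtain ⟨σ, h1, h2⟩ := strat J hJ 0 _ hn
      refine ⟨σ, fun l => ?_, fun _ _ b hb => h2 b fun i => ?_⟩
      · have := h1 l
        rwa [Nat.zero_add] at this
      · rw [Nat.zero_add]
        exact hb i
    · refine ⟨fun _ => ∅, fun l => ?_, fun h1 h2 => absurd ⟨h1, h2⟩ hd⟩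
      rw [Cardinal.mk_emptyCollection]
      exact lt_of_lt_of_le Cardinal.aleph0_pos (hJ _)
  choose σ hσ1 hσ2 using hst
  have hpick : ∀ l : List K, ∃ y, y ∈ J (sch l.length) ∧ ∀ d, y ∉ σ d l := by
    intro l
    by_contra hcon
    push_neg at hcon
    have hsub : J (sch l.length) ⊆ ⋃ d, σ d l := by
      intro y hy
      obtain ⟨d, hd⟩ := hcon y hy
      exact Set.mem_iUnion.2 ⟨d, hd⟩
    have hlt : #(⋃ d, σ d l : Set K) < #(J (sch l.length)) := by
      rw [Cardinal.card_iUnion_lt_iff_forall_of_isRegular (hc.jr _)]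
      · exact fun d => hσ1 d l
      · rw [om_card]
        exact hc.j1 _
    exact absurd (Cardinal.mk_le_mk_of_subset hsub) (not_le.2 hlt)
  choose pf hpf1 hpf2 using hpick
  let hl : ℕ → List K := fun i => Nat.rec [] (fun _ l => l ++ [pf l]) i
  have hl1 : ∀ i, hl (i + 1) = hl i ++ [pf (hl i)] := fun i => rfl
  let b : ℕ → K := fun i => pf (hl i)
  have hlen : ∀ i, (hl i).length = i := by
    intro i
    induction i with
    | zero => rfl
    | succ i ih => rw [hl1, List.length_append, ih]; rfl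
  have hhist : ∀ i, hist b i = hl i := by
    intro i
    induction i with
    | zero => rfl
    | succ i ih =>
      rw [hl1, ← ih, hist, List.range_succ, List.map_append]
      simp only [List.map_cons, List.map_nil]
      rw [← hist, ih]
  have hbJ : ∀ i, b i ∈ J (sch i) := by
    intro i
    have := hpf1 (hl i)
    rwa [hlen i] at this
  have hbσ : ∀ d i, b i ∉ σ d (hist b i) := by
    intro d i
    rw [hhist i]
    exact hpf2 (hl i) d
  set A' : Set (U K) := A ∪ Set.range (fun i => (U.pt (b i) : U K)) with hA'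
  have hA'c : A'.Countable := hA.union (Set.countable_range _)
  obtain ⟨C', hC', hCt'⟩ := hull_club (K := K) hF hA'c
  obtain ⟨d, hdS, hdC, hdC'⟩ := hS _ (club_inter C C' hC hC')
  have hNcl : Closed F (Hull F (HA A' d)) := hull_closed _ _
  have hNB : Closed (BF lam J f) (Hull F (HA A' d)) := Closed.mono hB hNcl
  have hptN : ∀ i, U.pt (b i) ∈ Hull F (HA A' d) := fun i =>
    hAs A' d (Or.inr ⟨i, rfl⟩)
  have hin : ∀ i, exts (Hull F (HA A d)) b i ⊆ Hull F (HA A' d) := by
    intro i
    induction i with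
    | zero =>
      refine hull_mono F ?_
      exact Set.union_subset_union_left _ Set.subset_union_left
    | succ i ih =>
      rintro u ⟨g, hg, rfl⟩
      exact cl_ap hNB (ih hg) (hptN i)
  have hcl : ∀ i, Closed F (exts (Hull F (HA A d)) b i) := by
    intro i
    induction i with
    | zero => exact hull_closed _ _
    | succ i ih => exact ext_closed hH ih (b i)
  have hout : ∀ i, Hull F (HA A d) ⊆ exts (Hull F (HA A d)) b i := by
    intro i
    induction i with
    | zero => exact subset_rfl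
    | succ i ih => exact ih.trans (sub_ext (Closed.mono hB (hcl i)) (b i))
  obtain ⟨i, hi⟩ := hσ2 d hdS hdC b fun i => ⟨hbJ i, hbσ d i⟩
  apply hi
  apply Set.Subset.antisymm
  · intro a ha
    have h1 : a ∈ tr (Hull F (HA A' d)) := hin i ha
    rw [hCt' d hdC'] at h1
    rw [hCt d hdC]
    exact h1
  · intro a ha
    exact hout i ha

end Pool.Agent.Lib_MP_38e082_mm
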