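import Pool.Agent.Lib_MP_38e082_mm.Amal1
import Pool.Agent.Lib_MP_38e082_mm.Game

/-!
# GEN1: dense sets

## Proof
`den_DD`: given `p` and `a`, `exists_model` (`F = BF lam J f`, `A = {cd p.l, od a}`, `S = univ`) gives a
model `M`. Choose `b0` by `exists_bd`. The set of `x ∈ Av f (sp p.l)` with `b0 ≤ x` is unbounded, so of
size `> lam` (`unb`); the set of `x` with `¬ Unb {x' ∈ Av f (sp p.l) | x ∉ f x'}` has size `< lam`
(`exc_card`). So there is `x ∈ Av f (sp p.l)`, `b0 ≤ x`, with `Unb {x' ∈ Av f (sp p.l) | x ∉ f x'}`. Let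
`N` be a model (`exists_model`) with `cd (p.l ++ [(M, some x)]) ∈ N`. Take
`q.l = p.l ++ [(M, some x), (N, none)]` (`glue`, `mem_of_cd`). Free: for `y ∈ sp p.l`, `y ∉ f x` as
`x ∈ Av`, and `x ∉ f y`: `pt y ∈ M` (`mem_of_cd`), `Bd M x` with `Rel.refl` gives `∀ z ∈ f y, z < x`.
`cond_nonempty`: the empty list.
-/

open Cardinal Set

namespace Pool.Agent.Lib_MP_38e082_mm

variable {K : Type} [LinearOrder K] {lam : Cardinal.{0}} {J : ℕ → Set K} {f : K → Set K}

/-- the dense sets -/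
def DD (lam : Cardinal.{0}) (J : ℕ → Set K) (f : K → Set K) (a : Om) : Set (Cond lam J f) :=
  {p | ∃ x, x ∈ sp p.l ∧ ∃ b ∈ p.l, ∃ c ∈ p.l, a ∈ tr b.1 ∧ Bd lam J f b.1 x ∧ U.pt x ∈ c.1}

omit [LinearOrder K] in
private theorem gen1_sp_nil : sp ([] : List (Blk K)) = ∅ := by
  ext x
  simp [sp]

omit [LinearOrder K] in
private theorem gen1_sp_some (M : Set (U K)) (x : K) : sp [((M, some x) : Blk K)] = {x} := by
  ext y
  simp only [sp, List.mem_singleton, Set.mem_setOf_eq, Set.mem_singleton_iff]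
  constructor
  · rintro ⟨b, hb, hy⟩
    rw [hb] at hy
    exact (Option.some.inj hy).symm
  · intro hy
    exact ⟨_, rfl, by rw [hy]⟩

omit [LinearOrder K] in
private theorem gen1_sp_none (M : Set (U K)) : sp [((M, none) : Blk K)] = ∅ := by
  ext y
  simp only [sp, List.mem_singleton, Set.mem_setOf_eq, Set.mem_empty_iff_false, iff_false]
  rintro ⟨b, hb, hy⟩
  rw [hb] at hy
  cases hy

theorem cond_nonempty (hc : Ctx K lam J f) : Nonempty (Cond lam J f) := by
  refine ⟨⟨[], ⟨by simp, List.isChain_nil, by simp⟩, ?_, ?_⟩⟩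
  · intro x hx
    rw [gen1_sp_nil] at hx
    exact absurd hx (Set.notMem_empty x)
  · intro b
    refine ⟨b, ?_, le_rfl⟩
    intro y hy
    rw [gen1_sp_nil] at hy
    exact absurd hy (Set.notMem_empty y)

private theorem gen1_stat (a : Om) : Stat (Set.univ : Set Om) := by
  intro C hC
  obtain ⟨b, hb, -⟩ := hC.1 a
  exact ⟨b, Set.mem_univ b, hb⟩

private theorem gen1_single {M : Set (U K)} (hM : Mod lam J f M) (o : Option K)
    (ho : ∀ x, o = some x → Bd lam J f M x) : Val lam J f [((M, o) : Blk K)] := by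
  refine ⟨?_, List.isChain_singleton _, ?_⟩
  · intro b hb
    rw [List.mem_singleton] at hb
    rw [hb]
    exact hM
  · intro b hb x hx
    rw [List.mem_singleton] at hb
    rw [hb] at hx ⊢
    exact ho x hx

theorem den_DD (hc : Ctx K lam J f) (a : Om) : Den (DD lam J f a) := by
  intro p
  obtain ⟨M, d, hAM, hMc, hMcl, hMW, -, -⟩ := exists_model (A := {cd p.l, U.od a}) hc
    (BF_countable (lam := lam) (J := J) (f := f)) (subset_refl _) BF_hat
    ((Set.countable_singleton _).insert _) ⟨_, Set.mem_insert _ _⟩ (gen1_stat a)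
  have hcdM : cd p.l ∈ M := hAM (Set.mem_insert _ _)
  have haM : U.od a ∈ M := hAM (Set.mem_insert_of_mem _ (Set.mem_singleton _))
  have hM : Mod lam J f M := ⟨hMc, ⟨_, hcdM⟩, hMcl, ⟨0, hMW⟩⟩
  obtain ⟨b0, hb0⟩ := exists_bd hc hM
  -- the new point
  obtain ⟨x, hxA, hxb, hxU⟩ : ∃ x, x ∈ Av f (sp p.l) ∧ b0 ≤ x ∧
      Unb {x' | x' ∈ Av f (sp p.l) ∧ x ∉ f x'} := by
    by_contra hcon
    push Not at hcon
    have h1 : Unb {x | x ∈ Av f (sp p.l) ∧ b0 ≤ x} := by
      intro b
      obtain ⟨x, hx, hbx⟩ := p.gd (max b b0)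
      exact ⟨x, ⟨hx, (le_max_right _ _).trans hbx⟩, (le_max_left _ _).trans hbx⟩
    have h2 : lam < #{x | x ∈ Av f (sp p.l) ∧ b0 ≤ x} := hc.unb _ h1
    have h3 := exc_card hc p.gd
    have h4 : #{x | x ∈ Av f (sp p.l) ∧ b0 ≤ x} ≤
        #{y | ¬ Unb {x | x ∈ Av f (sp p.l) ∧ y ∉ f x}} :=
      Cardinal.mk_le_mk_of_subset (fun x hx => hcon x hx.1 hx.2)
    exact absurd (h2.trans_le h4) (not_lt.2 h3.le)
  have hbdx : Bd lam J f M x := hb0 x hxb
  have hv1 : Val lam J f (p.l ++ [(M, some x)]) :=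
    glue p.va (gen1_single hM _ (fun y hy => by rw [← Option.some.inj hy]; exact hbdx)) hcdM
  obtain ⟨N, d', hAN, hNc, hNcl, hNW, -, -⟩ := exists_model
    (A := {cd (p.l ++ [((M, some x) : Blk K)])}) hc
    (BF_countable (lam := lam) (J := J) (f := f)) (subset_refl _) BF_hat
    (Set.countable_singleton _) ⟨_, Set.mem_singleton _⟩ (gen1_stat a)
  have hcdN : cd (p.l ++ [((M, some x) : Blk K)]) ∈ N := hAN (Set.mem_singleton _)
  have hN : Mod lam J f N := ⟨hNc, ⟨_, hcdN⟩, hNcl, ⟨0, hNW⟩⟩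
  have hv2 : Val lam J f ((p.l ++ [(M, some x)]) ++ [(N, none)]) :=
    glue hv1 (gen1_single hN _ (fun y hy => by cases hy)) hcdN
  have hsp : sp ((p.l ++ [((M, some x) : Blk K)]) ++ [(N, none)]) = sp p.l ∪ {x} := by
    rw [sp_append, sp_append, gen1_sp_some, gen1_sp_none, Set.union_empty]
  have hfree : Fre f (sp p.l ∪ {x}) := by
    intro u hu v hv huv
    rcases hu with hu | hu
    · rcases hv with hv | hv
      · exact p.fr u hu v hv huv
      · obtain ⟨b, hb, hbu⟩ := hu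
        have h1 : U.pt u ∈ M := (mem_of_cd hMcl hcdM b hb).2 u hbu
        have h2 := ((hbdx M Rel.refl).1 u h1).2
        rw [Set.mem_singleton_iff] at hv
        rw [hv]
        intro h3
        exact lt_irrefl _ (h2 x h3)
    · rw [Set.mem_singleton_iff] at hu
      rcases hv with hv | hv
      · rw [hu]
        exact hxA v hv
      · rw [Set.mem_singleton_iff] at hv
        exact absurd (hu.trans hv.symm) huv
  have hav : Unb (Av f (sp p.l ∪ {x})) := by
    intro b
    obtain ⟨x', hx', hb'⟩ := hxU b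
    refine ⟨x', ?_, hb'⟩
    intro y hy
    rcases hy with hy | hy
    · exact hx'.1 y hy
    · rw [Set.mem_singleton_iff] at hy
      rw [hy]
      exact hx'.2
  refine ⟨⟨(p.l ++ [(M, some x)]) ++ [(N, none)], hv2, by rw [hsp]; exact hfree,
    by rw [hsp]; exact hav⟩, ⟨?_, ?_⟩, ?_⟩
  · show sp p.l ⊆ sp ((p.l ++ [((M, some x) : Blk K)]) ++ [(N, none)])
    rw [hsp]
    exact Set.subset_union_left
  · intro b hb
    exact ⟨b, List.mem_append_left _ (List.mem_append_left _ hb), Rel.refl⟩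
  · refine ⟨x, ?_, (M, some x), ?_, (N, none), ?_, haM, hbdx, ?_⟩
    · show x ∈ sp ((p.l ++ [((M, some x) : Blk K)]) ++ [(N, none)])
      rw [hsp]
      exact Or.inr rfl
    · exact List.mem_append_left _ (List.mem_append_right _ (List.mem_singleton_self _))
    · exact List.mem_append_right _ (List.mem_singleton_self _)
    · exact (mem_of_cd hNcl hcdN (M, some x)
        (List.mem_append_right _ (List.mem_singleton_self _))).2 x rfl

end Pool.Agent.Lib_MP_38e082_mm
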