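import Pool.Agent.Lib_MP_38e082_mm.Ext

/-!
# GOODC: the set of good points of a set of size `lam` has size `lam`

## Proof
`W_mono`: `R' k M := ∃ N ⊇ M, tr M = tr N ∧ R k N` works (`ext_mono`; `tr M ⊆ tr (ext M y)` holds for
the models in question: use the closure hypothesis: put `Closed (BF lam J f) M` into `R'` as well,
`sub_ext`, `ext_closed`).
`good_card`: let `W J k M`. `#Y = lam`, so there is an injection of `⋃ n, J n` (size `≤ lam`) into `Y`,
`e := lf J Y` is one, `fn (fun x => pt (e x)) ∈ M` (`cl_lf`). Let `n` be given. There is `m ≥ k` with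
`sch m = n` (`Nat.pair n j`, `j` large); playing arbitrary moves of II's winning play (with `B = ∅`)
one gets `N ⊇ M`, `tr N = tr M`, `W J m N`, `Closed N`. The set `T` of `x ∈ J n` with
`tr (ext N x) = tr N` and `W J (m+1) (ext N x)` has size `#(J n)` (otherwise take `B = T` in `W`). For
`x ∈ T` the point `y = e x` is good for `M`: `ext M y ⊆ ext N x` because for `fn g ∈ M` the function
`fn (g ∘ e)` is in `M ⊆ N` (`cl_comp`); so `tr (ext M y) = tr M` and `W J (m+1) (ext M y)` (`W_mono`). So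
`#(Good J M Y) ≥ #(J n)` for all `n`; with `jc` this gives `≥ lam`.
-/

open Cardinal Set

namespace Pool.Agent.Lib_MP_38e082_mm

variable {K : Type} [LinearOrder K] {lam : Cardinal.{0}} {J : ℕ → Set K} {f : K → Set K}

theorem goodc_tr {M N : Set (U K)} (hM : Closed (BF lam J f) M) {y : K} (h : ext M y ⊆ N)
    (ht : tr N = tr M) : tr (ext M y) = tr M := by
  apply Set.Subset.antisymm
  · intro a ha
    have h1 : a ∈ tr N := h ha
    rw [ht] at h1
    exact h1
  · intro a ha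
    exact sub_ext hM y ha

theorem W_mono {k : ℕ} {M N : Set (U K)} (hM : Closed (BF lam J f) M) (h : M ⊆ N)
    (ht : tr M = tr N) (hW : W J k N) : W J k M := by
  obtain ⟨R, hR, hs⟩ := hW
  refine ⟨fun k M => Closed (BF lam J f) M ∧ ∃ N, M ⊆ N ∧ tr M = tr N ∧ R k N,
    ⟨hM, N, h, ht, hR⟩, ?_⟩
  rintro k M ⟨hM, N, h, ht, hR⟩ B hB
  obtain ⟨y, hy, hyB, hty, hRy⟩ := hs k N hR B hB
  have h1 : tr (ext M y) = tr M := goodc_tr hM (ext_mono h y) (by rw [hty, ht])
  refine ⟨y, hy, hyB, h1, ext_closed BF_hat hM y, ext N y, ext_mono h y, ?_, hRy⟩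
  rw [h1, ht, hty]

theorem goodc_next (hc : Ctx K lam J f) {m : ℕ} {N : Set (U K)} (hN : Closed (BF lam J f) N)
    (hW : W J m N) : ∃ N', N ⊆ N' ∧ tr N' = tr N ∧ W J (m + 1) N' ∧ Closed (BF lam J f) N' := by
  obtain ⟨R, hR, hs⟩ := hW
  have h0 : #(∅ : Set K) < #(J (sch m)) := by
    rw [Cardinal.mk_eq_zero]
    exact lt_of_le_of_lt bot_le (hc.j1 _)
  obtain ⟨y, _, _, hty, hRy⟩ := hs m N hR ∅ h0
  exact ⟨ext N y, sub_ext hN y, hty, ⟨R, hRy, hs⟩, ext_closed BF_hat hN y⟩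

theorem goodc_iter (hc : Ctx K lam J f) {k : ℕ} {M : Set (U K)} (hM : Closed (BF lam J f) M)
    (hW : W J k M) (i : ℕ) :
    ∃ N, M ⊆ N ∧ tr N = tr M ∧ W J (k + i) N ∧ Closed (BF lam J f) N := by
  induction i with
  | zero => exact ⟨M, Set.Subset.rfl, rfl, hW, hM⟩
  | succ i ih =>
    obtain ⟨N, h1, h2, h3, h4⟩ := ih
    obtain ⟨N', h1', h2', h3', h4'⟩ := goodc_next hc h4 h3
    exact ⟨N', h1.trans h1', h2'.trans h2, h3', h4'⟩

theorem goodc_lf (hc : Ctx K lam J f) {Y : Set K} (hl : #Y = lam) :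
    Set.InjOn (lf J Y) (⋃ n, J n) ∧ Set.MapsTo (lf J Y) (⋃ n, J n) Y := by
  classical
  have hinf : ℵ₀ ≤ lam := (Cardinal.aleph0_le_aleph 1).trans hc.inf.le
  have h1 : #(⋃ n, J n : Set K) ≤ #Y := by
    rw [hl]
    refine (Cardinal.mk_iUnion_le_sum_mk).trans ?_
    refine (Cardinal.sum_le_sum _ (fun _ : ℕ => lam) fun n => (hc.jl n).le).trans ?_
    rw [Cardinal.sum_const, Cardinal.mk_nat, Cardinal.lift_aleph0, Cardinal.lift_id]
    exact Cardinal.mul_le_of_le hinf hinf le_rfl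
  obtain ⟨g⟩ := h1
  have h : ∃ e : K → K, Set.InjOn e (⋃ n, J n) ∧ Set.MapsTo e (⋃ n, J n) Y := by
    refine ⟨fun x => if h : x ∈ ⋃ n, J n then (g ⟨x, h⟩ : K) else x, ?_, ?_⟩
    · intro x hx y hy hxy
      simp only [dif_pos hx, dif_pos hy] at hxy
      have h2 := g.injective (Subtype.ext hxy)
      exact congrArg Subtype.val h2
    · intro x hx
      simp only [dif_pos hx]
      exact (g ⟨x, hx⟩).2
  unfold lf
  rw [dif_pos h]
  exact h.choose_spec

theorem good_card (hc : Ctx K lam J f) {M : Set (U K)} (hM : Closed (BF lam J f) M)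
    (hg : Gd J M) {Y : Set K} (hY : U.st Y ∈ M) (hl : #Y = lam) : #(Good J M Y) = lam := by
  obtain ⟨k, hW⟩ := hg
  apply le_antisymm
  · rw [← hl]
    exact Cardinal.mk_le_mk_of_subset fun y hy => hy.1
  · by_contra hlt
    push Not at hlt
    obtain ⟨n, hn⟩ := hc.jc _ hlt
    refine absurd hn (not_lt.2 ?_)
    obtain ⟨hinj, hmap⟩ := goodc_lf hc hl
    have hk : k ≤ Nat.pair n k := Nat.right_le_pair n k
    obtain ⟨N, h1, h2, h3, h4⟩ := goodc_iter hc hM hW (Nat.pair n k - k)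
    rw [Nat.add_sub_cancel' hk] at h3
    have hsch : sch (Nat.pair n k) = n := by simp [sch]
    set m := Nat.pair n k with hm
    obtain ⟨R, hR, hs⟩ := h3
    have hT : #(J n) ≤ #{x | x ∈ J n ∧ tr (ext N x) = tr N ∧ W J (m + 1) (ext N x)} := by
      by_contra hlt2
      push Not at hlt2
      rw [← hsch] at hlt2
      obtain ⟨y, hy, hyB, hty, hRy⟩ := hs m N hR _ hlt2
      exact hyB ⟨hy, hty, R, hRy, hs⟩
    refine hT.trans ?_
    have hsub : {x | x ∈ J n ∧ tr (ext N x) = tr N ∧ W J (m + 1) (ext N x)} ⊆ ⋃ n, J n :=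
      fun x hx => Set.mem_iUnion.2 ⟨n, hx.1⟩
    rw [← Cardinal.mk_image_eq_of_injOn _ _ (hinj.mono hsub)]
    apply Cardinal.mk_le_mk_of_subset
    rintro _ ⟨x, ⟨hx1, hx2, hx3⟩, rfl⟩
    have hsube : ext M (lf J Y x) ⊆ ext N x := by
      rintro _ ⟨g, hgM, rfl⟩
      exact ⟨fun x => g (lf J Y x), h1 (cl_comp hM hgM (cl_lf hM hY)), rfl⟩
    have htr : tr (ext M (lf J Y x)) = tr M := goodc_tr hM hsube (by rw [hx2, h2])
    refine ⟨hmap (hsub ⟨hx1, hx2, hx3⟩), htr, m + 1, ?_⟩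
    exact W_mono (lam := lam) (f := f) (ext_closed BF_hat hM _) hsube (by rw [htr, hx2, h2]) hx3

end Pool.Agent.Lib_MP_38e082_mm
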