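import Pool.Agent.Lib_MP_38e082_mm.Ext

/-!
# HULL: closure under countably many functions, club of traces

`Hull F A` is the smallest set containing `A` closed under `F`. It is countable if `F` and `A` are
(levels: `A_0 = A`, `A_(n+1) = A_n ∪ image2`, or `Set.Countable` of a closure). For a limit `d`,
`Hull F (HA A d) = ⋃ b < d, Hull F (HA A b)` (induction on membership, using monotonicity). Club:
`C = {d | (∃ a, a < d), limit, tr (Hull F (HA A d)) ⊆ Iio d}`; unbounded: `club_iter` with `g c` = a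
bound (`om_bdd`) of the countable set `tr (Hull F (HA A c))`.
-/

open Cardinal Set

namespace Pool.Agent.Lib_MP_38e082_mm

variable {K : Type}

/-- closure of `A` under the functions of `F` -/
inductive HullP (F : Set (U K → U K → U K)) (A : Set (U K)) : U K → Prop
  | base {a : U K} (h : a ∈ A) : HullP F A a
  | app {Φ : U K → U K → U K} {a b : U K} (hΦ : Φ ∈ F) (ha : HullP F A a) (hb : HullP F A b) :
      HullP F A (Φ a b)

/-- closure of `A` under the functions of `F` -/
def Hull (F : Set (U K → U K → U K)) (A : Set (U K)) : Set (U K) := {u | HullP F A u}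

/-- `A` and the countable ordinals below `d` -/
def HA (A : Set (U K)) (d : Om) : Set (U K) := A ∪ {u | ∃ a, a < d ∧ u = U.od a}

theorem hull_closed (F : Set (U K → U K → U K)) (A : Set (U K)) : Closed F (Hull F A) :=
  fun _ hΦ _ ha _ hb => HullP.app hΦ ha hb

theorem sub_hull (F : Set (U K → U K → U K)) (A : Set (U K)) : A ⊆ Hull F A :=
  fun _ ha => HullP.base ha

theorem hull_mono (F : Set (U K → U K → U K)) {A B : Set (U K)} (h : A ⊆ B) :
    Hull F A ⊆ Hull F B := by
  intro u hu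
  have hu' : HullP F A u := hu
  induction hu' with
  | base h1 => exact HullP.base (h h1)
  | app hΦ ha hb iha ihb => exact HullP.app hΦ (iha ha) (ihb hb)

theorem hull_min (F : Set (U K → U K → U K)) {A M : Set (U K)} (h : A ⊆ M) (hM : Closed F M) :
    Hull F A ⊆ M := by
  intro u hu
  have hu' : HullP F A u := hu
  induction hu' with
  | base h1 => exact h h1
  | app hΦ ha hb iha ihb => exact hM _ hΦ _ (iha ha) _ (ihb hb)

/-- levels of the hull -/
def hullLev (F : Set (U K → U K → U K)) (A : Set (U K)) : ℕ → Set (U K)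
  | 0 => A
  | n + 1 => hullLev F A n ∪ ⋃ Φ ∈ F, Set.image2 Φ (hullLev F A n) (hullLev F A n)

theorem hullLev_mono (F : Set (U K → U K → U K)) (A : Set (U K)) : Monotone (hullLev F A) :=
  monotone_nat_of_le_succ fun _ => Set.subset_union_left

theorem hull_countable {F : Set (U K → U K → U K)} (hF : F.Countable) {A : Set (U K)}
    (hA : A.Countable) : (Hull F A).Countable := by
  have h1 : ∀ n, (hullLev F A n).Countable := by
    intro n
    induction n with
    | zero => exact hA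
    | succ n ih => exact ih.union (hF.biUnion fun Φ _ => ih.image2 ih Φ)
  refine (Set.countable_iUnion h1).mono ?_
  intro u hu
  have hu' : HullP F A u := hu
  induction hu' with
  | base h1 => exact Set.mem_iUnion.2 ⟨0, h1⟩
  | @app Φ a b hΦ ha hb iha ihb =>
    obtain ⟨n, hn⟩ := Set.mem_iUnion.1 (iha ha)
    obtain ⟨m, hm⟩ := Set.mem_iUnion.1 (ihb hb)
    refine Set.mem_iUnion.2 ⟨max n m + 1, Or.inr ?_⟩
    refine Set.mem_iUnion₂.2 ⟨Φ, hΦ, ?_⟩
    exact Set.mem_image2_of_mem (hullLev_mono F A (le_max_left n m) hn)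
      (hullLev_mono F A (le_max_right n m) hm)

theorem hull_HA_mono (A : Set (U K)) {b c : Om} (h : b ≤ c) : HA A b ⊆ HA A c := by
  rintro u (hu | ⟨a, ha, rfl⟩)
  · exact Or.inl hu
  · exact Or.inr ⟨a, lt_of_lt_of_le ha h, rfl⟩

theorem hull_cont {F : Set (U K → U K → U K)} {A : Set (U K)} {d : Om} (hd : ∃ a, a < d)
    (hl : ∀ a < d, ∃ b, a < b ∧ b < d) {u : U K} (hu : u ∈ Hull F (HA A d)) :
    ∃ b, b < d ∧ u ∈ Hull F (HA A b) := by
  have hu' : HullP F (HA A d) u := hu
  induction hu' with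
  | @base a h1 =>
    rcases h1 with h1 | ⟨x, hx, rfl⟩
    · obtain ⟨b, hb⟩ := hd
      exact ⟨b, hb, sub_hull _ _ (Or.inl h1)⟩
    · obtain ⟨b, hb, hbd⟩ := hl x hx
      exact ⟨b, hbd, sub_hull _ _ (Or.inr ⟨x, hb, rfl⟩)⟩
  | app hΦ ha hb iha ihb =>
    obtain ⟨b, hb1, hb2⟩ := iha ha
    obtain ⟨c, hc1, hc2⟩ := ihb hb
    exact ⟨max b c, max_lt hb1 hc1,
      hull_closed _ _ _ hΦ _ (hull_mono F (hull_HA_mono A (le_max_left b c)) hb2) _
        (hull_mono F (hull_HA_mono A (le_max_right b c)) hc2)⟩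

theorem hull_tr_countable {M : Set (U K)} (hM : M.Countable) : (tr M).Countable := by
  have h1 : tr M = U.od ⁻¹' M := rfl
  rw [h1]
  exact hM.preimage_of_injOn (fun a _ b _ h => U.od.inj h)

theorem hull_HA_countable {A : Set (U K)} (hA : A.Countable) (c : Om) : (HA A c).Countable := by
  refine hA.union ?_
  have h1 : {u : U K | ∃ a, a < c ∧ u = U.od a} = U.od '' Set.Iio c := by
    ext u
    constructor
    · rintro ⟨a, ha, rfl⟩
      exact ⟨a, ha, rfl⟩
    · rintro ⟨a, ha, rfl⟩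
      exact ⟨a, ha, rfl⟩
  rw [h1]
  exact (om_ini c).image _

theorem hull_club {F : Set (U K → U K → U K)} (hF : F.Countable) {A : Set (U K)}
    (hA : A.Countable) : ∃ C, IsClub C ∧ ∀ d ∈ C, tr (Hull F (HA A d)) = Set.Iio d := by
  refine ⟨{d | (∃ a, a < d) ∧ (∀ a < d, ∃ b, a < b ∧ b < d) ∧
    tr (Hull F (HA A d)) ⊆ Set.Iio d}, ⟨?_, ?_⟩, ?_⟩
  · intro a
    have hg : ∀ c : Om, ∃ b, ∀ x ∈ tr (Hull F (HA A c)), x < b := fun c =>
      om_bdd _ (hull_tr_countable (hull_countable hF (hull_HA_countable hA c)))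
    choose g hg using hg
    obtain ⟨d, had, hd⟩ := club_iter g a
    have hl : ∀ b < d, ∃ c, b < c ∧ c < d := fun b hb => by
      obtain ⟨c, h1, h2, _⟩ := hd b hb
      exact ⟨c, h1, h2⟩
    refine ⟨d, ⟨⟨a, had⟩, hl, ?_⟩, had⟩
    intro x hx
    obtain ⟨b, hb, hxb⟩ := hull_cont ⟨a, had⟩ hl hx
    obtain ⟨c, h1, h2, h3⟩ := hd b hb
    have hxc : x ∈ tr (Hull F (HA A c)) := hull_mono F (hull_HA_mono A h1.le) hxb
    exact lt_trans (hg c x hxc) h3
  · intro d hd hcl
    have hl : ∀ b < d, ∃ c, b < c ∧ c < d := fun b hb => by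
      obtain ⟨c, _, h1, h2⟩ := hcl b hb
      exact ⟨c, h1, h2⟩
    refine ⟨hd, hl, ?_⟩
    intro x hx
    obtain ⟨b, hb, hxb⟩ := hull_cont hd hl hx
    obtain ⟨c, hc, h1, h2⟩ := hcl b hb
    have hxc : x ∈ tr (Hull F (HA A c)) := hull_mono F (hull_HA_mono A h1.le) hxb
    exact lt_trans (hc.2.2 hxc) h2
  · rintro d ⟨_, _, h3⟩
    refine Set.Subset.antisymm h3 ?_
    intro x hx
    exact sub_hull _ _ (Or.inr ⟨x, hx, rfl⟩)

end Pool.Agent.Lib_MP_38e082_mm
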