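import Pool.Agent.Lib_MP_38e082_mm.Lst1

/-!
# LST2: codes of lists of blocks

## Proof
`cd_mem`, `mem_of_cd`: induction (`cl_pr`, `cl_em`, `cl_fst`, `cl_snd`). `cd_inj`: induction, `mc_inj`
(`pr` is injective, `oc` is injective).
`glue`: adjacency at the joint: the last block `b` of `t` satisfies `Lk b N` by `mem_of_cd`.
-/

open Cardinal Set

namespace Pool.Agent.Lib_MP_38e082_mm

variable {K : Type} [LinearOrder K] {lam : Cardinal.{0}} {J : ℕ → Set K} {f : K → Set K}

theorem cd_mem {M : Set (U K)} (hM : Closed (BF lam J f) M) (hne : M.Nonempty)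
    {l : List (Blk K)} (h : ∀ b ∈ l, mc b.1 ∈ M ∧ ∀ x, b.2 = some x → U.pt x ∈ M) :
    cd l ∈ M := by
  induction l with
  | nil => exact cl_em hM hne
  | cons b l ih =>
    have h1 := h b List.mem_cons_self
    have h2 := ih fun c hc => h c (List.mem_cons_of_mem _ hc)
    rw [cd]
    refine cl_pr hM (cl_pr hM h1.1 ?_) h2
    rcases hb : b.2 with _ | x
    · exact cl_em hM hne
    · exact h1.2 x hb

theorem mem_of_cd {M : Set (U K)} (hM : Closed (BF lam J f) M) {l : List (Blk K)}
    (h : cd l ∈ M) : ∀ b ∈ l, mc b.1 ∈ M ∧ ∀ x, b.2 = some x → U.pt x ∈ M := by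
  induction l with
  | nil => intro b hb; exact absurd hb List.not_mem_nil
  | cons b l ih =>
    rw [cd] at h
    have h1 := cl_fst hM h
    have h2 := ih (cl_snd hM h)
    intro c hc
    rcases List.mem_cons.1 hc with rfl | hc'
    · refine ⟨cl_fst hM h1, fun x hx => ?_⟩
      have h3 := cl_snd hM h1
      rw [hx] at h3
      exact h3
    · exact h2 c hc'

omit [LinearOrder K] in
theorem lst2_pr {a b c d : U K} (h : pr a b = pr c d) : a = c ∧ b = d := by
  have h1 := U.sq.inj h
  have h2 := congrFun h1 0
  have h3 := congrFun h1 1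
  simp at h2 h3
  exact ⟨h2, h3⟩

omit [LinearOrder K] in
theorem lst2_oc {o o' : Option K} (h : oc o = oc o') : o = o' := by
  cases o with
  | none =>
    cases o' with
    | none => rfl
    | some y => exact absurd h (by simp [oc])
  | some x =>
    cases o' with
    | none => exact absurd h (by simp [oc])
    | some y => rw [U.pt.inj h]

theorem cd_inj {l l' : List (Blk K)} (hl : Val lam J f l) (hl' : Val lam J f l')
    (h : cd l = cd l') : l = l' := by
  induction l generalizing l' with
  | nil =>
    cases l' with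
    | nil => rfl
    | cons c l' => exact absurd h (by simp [cd, pr])
  | cons b l ih =>
    cases l' with
    | nil => exact absurd h (by simp [cd, pr])
    | cons c l' =>
      rw [cd, cd] at h
      obtain ⟨h1, h2⟩ := lst2_pr h
      obtain ⟨h3, h4⟩ := lst2_pr h1
      have hb := hl.md b List.mem_cons_self
      have hc := hl'.md c List.mem_cons_self
      have h5 := mc_inj hb.ct hb.ne hc.ct hc.ne h3
      have h6 := lst2_oc h4
      rw [ih (val_tail hl) (val_tail hl') h2, Prod.ext h5 h6]

theorem glue {t : List (Blk K)} {N : Blk K} {L : List (Blk K)} (ht : Val lam J f t)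
    (hv : Val lam J f (N :: L)) (hcd : cd t ∈ N.1) : Val lam J f (t ++ N :: L) := by
  have hN := hv.md N List.mem_cons_self
  have h1 := mem_of_cd hN.cl hcd
  refine ⟨?_, ?_, ?_⟩
  · intro b hb
    rcases List.mem_append.1 hb with hb | hb
    · exact ht.md b hb
    · exact hv.md b hb
  · rw [List.isChain_append]
    refine ⟨ht.ch, hv.ch, ?_⟩
    intro x hx y hy
    have hxt : x ∈ t := List.mem_of_getLast? hx
    have hyN : y = N := by
      simp at hy
      exact hy.symm
    rw [hyN]
    exact h1 x hxt
  · intro b hb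
    rcases List.mem_append.1 hb with hb | hb
    · exact ht.bd b hb
    · exact hv.bd b hb

end Pool.Agent.Lib_MP_38e082_mm
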