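import Pool.Agent.Lib_MP_38e082_mm.Bdd

/-!
# LST1: lists of blocks

## Proof
`val_pw`: adjacent blocks satisfy `Lk`; `mc b.1 ∈ c.1` gives `b.1 ⊆ c.1` (`cl_mc`), so
`Lk b c`, `Lk c d` give `Lk b d` (induction on the list, `List.isChain_cons_cons`...).
`val_bd`: for `b` before `c` and `c.2 = some x`: by `exists_bd` and `cl_bt` there is `b0` with
`pt b0 ∈ c.1` and `Bd b.1 x'` for all `x' ≥ b0`; `Bd c.1 x` (with `Rel.refl`) gives `b0 < x`.
-/

open Cardinal Set

namespace Pool.Agent.Lib_MP_38e082_mm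

variable {K : Type} [LinearOrder K] {lam : Cardinal.{0}} {J : ℕ → Set K} {f : K → Set K}

omit [LinearOrder K] in
theorem sp_append (l l' : List (Blk K)) : sp (l ++ l') = sp l ∪ sp l' := by
  ext x
  simp only [sp, List.mem_append, mem_ofPred_eq, mem_union]
  constructor
  · rintro ⟨b, hb | hb, hx⟩
    · exact Or.inl ⟨b, hb, hx⟩
    · exact Or.inr ⟨b, hb, hx⟩
  · rintro (⟨b, hb, hx⟩ | ⟨b, hb, hx⟩)
    · exact ⟨b, Or.inl hb, hx⟩
    · exact ⟨b, Or.inr hb, hx⟩

theorem val_left {l l' : List (Blk K)} (h : Val lam J f (l ++ l')) : Val lam J f l :=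
  ⟨fun b hb => h.md b (List.mem_append_left _ hb), (List.isChain_append.1 h.ch).1,
    fun b hb => h.bd b (List.mem_append_left _ hb)⟩

theorem val_right {l l' : List (Blk K)} (h : Val lam J f (l ++ l')) : Val lam J f l' :=
  ⟨fun b hb => h.md b (List.mem_append_right _ hb), (List.isChain_append.1 h.ch).2.1,
    fun b hb => h.bd b (List.mem_append_right _ hb)⟩

theorem val_tail {N : Blk K} {L : List (Blk K)} (h : Val lam J f (N :: L)) : Val lam J f L :=
  val_right (l := [N]) h

theorem lst1_lk {b c d : Blk K} (hd : Mod lam J f d.1)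
    (hc : Mod lam J f c.1) (h1 : Lk b c) (h2 : Lk c d) : Lk b d := by
  have h3 : c.1 ⊆ d.1 := cl_mc hd.cl h2.1 hc.ct hc.ne
  exact ⟨h3 h1.1, fun x hx => h3 (h1.2 x hx)⟩

theorem val_pw {l : List (Blk K)} (h : Val lam J f l) :
    l.Pairwise fun b c => Lk b c ∧ b.1 ⊆ c.1 := by
  induction l with
  | nil => exact List.Pairwise.nil
  | cons b l ih =>
    have ih' := ih (val_tail h)
    rw [List.pairwise_cons]
    refine ⟨?_, ih'⟩
    have key : ∀ c ∈ l, Lk b c := by
      cases l with
      | nil => intro c hc; exact absurd hc List.not_mem_nil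
      | cons d l =>
        have hbd : Lk b d := by
          have := h.ch
          rw [List.isChain_cons_cons] at this
          exact this.1
        intro c hc
        rcases List.mem_cons.1 hc with rfl | hc'
        · exact hbd
        · have hdc := ((List.pairwise_cons.1 ih').1 c hc').1
          exact lst1_lk
            (h.md c (List.mem_cons_of_mem _ hc)) (h.md d (List.mem_cons_of_mem _ List.mem_cons_self)) hbd hdc
    intro c hc
    refine ⟨key c hc, ?_⟩
    have hb := h.md b List.mem_cons_self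
    exact cl_mc (h.md c (List.mem_cons_of_mem _ hc)).cl (key c hc).1 hb.ct hb.ne

theorem val_bd (hc : Ctx K lam J f) {l : List (Blk K)} (h : Val lam J f l) :
    l.Pairwise fun b c => ∀ x, c.2 = some x → Bd lam J f b.1 x := by
  refine (val_pw h).imp_of_mem ?_
  intro b c hb hcm hbc x hx
  have hbM := h.md b hb
  have hcM := h.md c hcm
  obtain ⟨b0, h1, h2⟩ := cl_bt hcM.cl hbc.1.1 hbM.ct hbM.ne (exists_bd hc hbM)
  have h3 := (h.bd c hcm x hx c.1 Rel.refl).1 b0 h1
  exact h2 x h3.1.le

/-- all points of a list are beyond the first model -/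
theorem val_bd_head (hc : Ctx K lam J f) {N : Blk K} {L : List (Blk K)}
    (h : Val lam J f (N :: L)) : ∀ x ∈ sp (N :: L), Bd lam J f N.1 x := by
  rintro x ⟨b, hb, hx⟩
  rcases List.mem_cons.1 hb with rfl | hb'
  · exact h.bd b hb x hx
  · exact (List.pairwise_cons.1 (val_bd hc h)).1 b hb' x hx

end Pool.Agent.Lib_MP_38e082_mm
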