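import Pool.Agent.Lib_MP_38e082_mm.Defs

/-!
# OM: facts about the countable ordinals `Om = (omega 1).ToType`

## Proof
`#(Iio a) < ℵ₁` for `a : (ω_ 1).ToType` (e.g. `Ordinal.typein`/`ToType.mk`, `Ordinal.card`,
`Cardinal.lt_ord`, `Cardinal.mk_Iio_ord_toType`), so countable. `#Om = ℵ₁`
(`Cardinal.mk_toType`, `Ordinal.card_omega`). A countable set is bounded: otherwise `Om` would be a
countable union of countable initial segments. `en_spec`: `Iio a` is countable and nonempty, so it is
the range of a sequence (`Set.Countable.exists_eq_range`). `om_lub`: the least strict upper bound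
(well order). `club_iter`: iterate `g` `ω` times from `a` (make it increasing), and take the least
strict upper bound `d` of the sequence.
-/

open Cardinal Set

namespace Pool.Agent.Lib_MP_38e082_mm

theorem om_card : #Om = ℵ₁ := by
  simp [Om]

theorem om_ini (a : Om) : (Set.Iio a).Countable := by
  rw [← Cardinal.le_aleph0_iff_set_countable]
  have h1 : Ordinal.typein (α := Om) (· < ·) a < Ordinal.omega 1 := Ordinal.typein_lt_self a
  have h2 : (Ordinal.typein (α := Om) (· < ·) a).card < ℵ₁ := by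
    rw [← Cardinal.lt_ord, Cardinal.ord_aleph]
    exact h1
  have h3 : (Ordinal.typein (α := Om) (· < ·) a).card = #(Set.Iio a) := by
    rfl
  rw [h3] at h2
  rw [← Cardinal.succ_aleph0] at h2
  exact Order.lt_succ_iff.mp h2

theorem om1_uncountable : ¬ (Set.univ : Set Om).Countable := by
  intro h
  rw [← Cardinal.le_aleph0_iff_set_countable, Cardinal.mk_univ, om_card] at h
  exact absurd h (not_le.mpr Cardinal.aleph0_lt_aleph_one)

theorem om_bdd (A : Set Om) (hA : A.Countable) : ∃ b, ∀ a ∈ A, a < b := by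
  by_contra hcon
  push Not at hcon
  apply om1_uncountable
  have h1 : (⋃ a ∈ A, Set.Iic a).Countable := by
    refine hA.biUnion (fun a _ => ?_)
    rw [← Set.Iio_insert]
    exact (om_ini a).insert a
  refine h1.mono (fun b _ => ?_)
  obtain ⟨a, ha, hab⟩ := hcon b
  exact Set.mem_biUnion ha hab

/-- an uncountable set of countable ordinals is not contained in a countable set -/
theorem om_unc (A B : Set Om) (hA : ¬ A.Countable) (hB : B.Countable) : ∃ a ∈ A, a ∉ B := by
  by_contra hcon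
  push Not at hcon
  exact hA (hB.mono hcon)

theorem en_spec (a b : Om) (h : b < a) : ∃ n, en a n = b := by
  have h1 : ∃ e : ℕ → Om, Set.range e = Set.Iio a := by
    obtain ⟨e, he⟩ := (om_ini a).exists_eq_range ⟨b, h⟩
    exact ⟨e, he.symm⟩
  have h2 : b ∈ Set.range h1.choose := by
    rw [h1.choose_spec]
    exact h
  obtain ⟨n, hn⟩ := h2
  refine ⟨n, ?_⟩
  unfold en
  rw [dif_pos h1]
  exact hn

/-- the smaller elements of an enumeration -/
theorem en_lt (a : Om) (n : ℕ) : en a n ≤ a := by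
  unfold en
  split_ifs with h1
  · have h2 : h1.choose n ∈ Set.range h1.choose := ⟨n, rfl⟩
    have h3 : h1.choose n ∈ Set.Iio a := (h1.choose_spec).subset h2
    exact le_of_lt h3
  · exact le_refl a

/-- least strict upper bound of a sequence -/
theorem om1_lub (s : ℕ → Om) : ∃ d, (∀ n, s n < d) ∧ ∀ b < d, ∃ n, b ≤ s n := by
  obtain ⟨b0, hb0⟩ := om_bdd (Set.range s) (Set.countable_range s)
  have hne : ({d : Om | ∀ n, s n < d} : Set Om).Nonempty := ⟨b0, fun n => hb0 _ ⟨n, rfl⟩⟩
  have hwf : WellFounded ((· < ·) : Om → Om → Prop) := wellFounded_lt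
  refine ⟨hwf.min _ hne, hwf.min_mem _ hne, fun b hb => ?_⟩
  by_contra hcon
  push Not at hcon
  exact hwf.not_lt_min _ (show b ∈ {d : Om | ∀ n, s n < d} from hcon) hb

theorem om1_succ (a : Om) : ∃ b, a < b := by
  obtain ⟨b, hb⟩ := om_bdd {a} (Set.countable_singleton a)
  exact ⟨b, hb a rfl⟩

/-- closure points of a function -/
theorem club_iter (g : Om → Om) (a : Om) : ∃ d, a < d ∧ ∀ b < d, ∃ c, b < c ∧ c < d ∧ g c < d := by
  have h1 : ∀ x : Om, ∃ y, max x (g x) < y := fun x => om1_succ _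
  choose h hh using h1
  let s : ℕ → Om := fun n => h^[n] a
  have hs : ∀ n, s (n + 1) = h (s n) := fun n => Function.iterate_succ_apply' h n a
  have hlt : ∀ n, s n < s (n + 1) := fun n => by
    rw [hs]
    exact lt_of_le_of_lt (le_max_left _ _) (hh (s n))
  have hg : ∀ n, g (s n) < s (n + 1) := fun n => by
    rw [hs]
    exact lt_of_le_of_lt (le_max_right _ _) (hh (s n))
  obtain ⟨d, hd1, hd2⟩ := om1_lub s
  refine ⟨d, hd1 0, fun b hb => ?_⟩
  obtain ⟨n, hn⟩ := hd2 b hb
  exact ⟨s (n + 1), lt_of_le_of_lt hn (hlt n), hd1 _, lt_trans (hg (n + 1)) (hd1 _)⟩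

theorem club_inter (C D : Set Om) (hC : IsClub C) (hD : IsClub D) : IsClub (C ∩ D) := by
  constructor
  · intro a
    choose c hc1 hc2 using hC.1
    choose d hd1 hd2 using hD.1
    let s : ℕ → Om := fun n => (fun x => d (c x))^[n] a
    have hs : ∀ n, s (n + 1) = d (c (s n)) := fun n =>
      Function.iterate_succ_apply' (fun x => d (c x)) n a
    have h1 : ∀ n, s n < c (s n) := fun n => hc2 _
    have h2 : ∀ n, c (s n) < s (n + 1) := fun n => by
      rw [hs]
      exact hd2 _
    obtain ⟨e, he1, he2⟩ := om1_lub s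
    refine ⟨e, ⟨?_, ?_⟩, he1 0⟩
    · refine hC.2 e ⟨s 0, he1 0⟩ (fun b hb => ?_)
      obtain ⟨n, hn⟩ := he2 b hb
      exact ⟨c (s n), hc1 _, lt_of_le_of_lt hn (h1 n), lt_trans (h2 n) (he1 _)⟩
    · refine hD.2 e ⟨s 0, he1 0⟩ (fun b hb => ?_)
      obtain ⟨n, hn⟩ := he2 b hb
      refine ⟨s (n + 1), ?_, lt_of_le_of_lt hn (lt_trans (h1 n) (h2 n)), he1 _⟩
      rw [hs]
      exact hd1 _
  · intro d hd hlim
    refine ⟨hC.2 d hd (fun a ha => ?_), hD.2 d hd (fun a ha => ?_)⟩
    · obtain ⟨b, hb, h1, h2⟩ := hlim a ha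
      exact ⟨b, hb.1, h1, h2⟩
    · obtain ⟨b, hb, h1, h2⟩ := hlim a ha
      exact ⟨b, hb.2, h1, h2⟩

end Pool.Agent.Lib_MP_38e082_mm
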