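import Pool.Agent.Lib_MP_38e082_mm.Ext

/-!
# REL: relevant extensions

All by induction on `Rel` (`ext_closed`, `sub_ext`, `ext_countable`).
-/

open Cardinal Set

namespace Pool.Agent.Lib_MP_38e082_mm

variable {K : Type} [LinearOrder K] {lam : Cardinal.{0}} {J : ℕ → Set K} {f : K → Set K}

theorem Rel.trans {M N P : Set (U K)} (h : Rel lam J M N) (h' : Rel lam J N P) :
    Rel lam J M P := by
  induction h' with
  | refl => exact h
  | step _ hY hc hy ht hg ih => exact Rel.step ih hY hc hy ht hg

theorem Rel.closed {F : Set (U K → U K → U K)} (hF : HatC F) {M N : Set (U K)}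
    (h : Rel lam J M N) (hM : Closed F M) : Closed F N := by
  induction h with
  | refl => exact hM
  | step _ _ _ _ _ _ ih => exact ext_closed hF ih _

theorem Rel.tr_eq {M N : Set (U K)} (h : Rel lam J M N) : tr N = tr M := by
  induction h with
  | refl => rfl
  | step _ _ _ _ ht _ ih => exact ht.trans ih

theorem Rel.mod {M N : Set (U K)} (h : Rel lam J M N) (hM : Mod lam J f M) : Mod lam J f N := by
  induction h with
  | refl => exact hM
  | step _ _ _ _ _ hg ih =>
    exact ⟨ext_countable ih.ct _, ⟨_, pt_ext ih.cl ih.ne _⟩, ext_closed BF_hat ih.cl _, hg⟩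

theorem Rel.sub {M N : Set (U K)} (h : Rel lam J M N) (hM : Mod lam J f M) : M ⊆ N := by
  induction h with
  | refl => exact Subset.rfl
  | step h _ _ _ _ _ ih => exact ih.trans (sub_ext (h.mod hM).cl _)

theorem Bd.rel {M N : Set (U K)} (h : Rel lam J M N) {x : K} (hb : Bd lam J f M x) :
    Bd lam J f N x := fun M' hM' => hb M' (h.trans hM')

theorem rel_countable {M N : Set (U K)} (h : Rel lam J M N) (hM : M.Countable) :
    N.Countable := by
  induction h with
  | refl => exact hM
  | step _ _ _ _ _ _ ih => exact ext_countable ih _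

end Pool.Agent.Lib_MP_38e082_mm
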