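import Pool.Agent.Lib_MP_38e082_mm.Ssp1
import Pool.Agent.Lib_MP_38e082_mm.Game

/-!
# SSP2: the poset preserves stationary subsets of `Om`

## Proof
`add_model`: validity by `glue` (`Val [(M, none)]`, `cd p.l ∈ M`).
`ssp_cond`: `exists_model` with `F = FC C`, `A = {cd p.l, od a0}`; `q = p.l ++ [(M, none)] ≤ p`;
`q ∈ C d` by `C.cl` and `ssp_step`; `∃ a, a < d` as `od a0 ∈ M`.
-/

open Cardinal Set

namespace Pool.Agent.Lib_MP_38e082_mm

variable {K : Type} [LinearOrder K] {lam : Cardinal.{0}} {J : ℕ → Set K} {f : K → Set K}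

private theorem ssp_single {M : Set (U K)} (hM : Mod lam J f M) :
    Val lam J f [((M, none) : Blk K)] := by
  refine ⟨?_, List.isChain_singleton _, ?_⟩
  · intro b hb
    rw [List.mem_singleton] at hb
    rw [hb]
    exact hM
  · intro b hb x hx
    rw [List.mem_singleton] at hb
    rw [hb] at hx
    cases hx

omit [LinearOrder K] in
private theorem ssp_sp_none (M : Set (U K)) : sp [((M, none) : Blk K)] = ∅ := by
  ext y
  simp only [sp, List.mem_singleton, Set.mem_ofPred_eq, Set.mem_empty_iff_false, iff_false]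
  rintro ⟨b, hb, hy⟩
  rw [hb] at hy
  cases hy

theorem add_model (p : Cond lam J f) {M : Set (U K)} (hM : Mod lam J f M) (h : cd p.l ∈ M) :
    ∃ q : Cond lam J f, q.l = p.l ++ [(M, none)] ∧ q ≤ p := by
  have hsp : sp (p.l ++ [((M, none) : Blk K)]) = sp p.l := by
    rw [sp_append, ssp_sp_none, Set.union_empty]
  refine ⟨⟨p.l ++ [(M, none)], glue p.va (ssp_single hM) h, by rw [hsp]; exact p.fr,
    by rw [hsp]; exact p.gd⟩, rfl, ?_, ?_⟩
  · show sp p.l ⊆ sp (p.l ++ [((M, none) : Blk K)])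
    rw [hsp]
  · intro b hb
    exact ⟨b, List.mem_append_left _ hb, Rel.refl⟩

theorem ssp_cond (hc : Ctx K lam J f) : SSP (Cond lam J f) := by
  haveI : Nonempty K := hc.ne
  intro S hS C hC p
  have hSne : ∃ a0 : Om, a0 ∈ S := by
    by_contra hcon
    push Not at hcon
    have huniv : IsClub (Set.univ : Set Om) := by
      refine ⟨fun a => ?_, fun d _ _ => Set.mem_univ d⟩
      obtain ⟨b, hb⟩ := om_bdd {a} (Set.countable_singleton a)
      exact ⟨b, Set.mem_univ b, hb a rfl⟩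
    obtain ⟨d, hd, -⟩ := hS Set.univ huniv
    exact hcon d hd
  obtain ⟨a0, -⟩ := hSne
  obtain ⟨M, d, hAM, hMc, hMcl, hMW, hdS, htr⟩ := exists_model (A := {cd p.l, U.od a0}) hc
    (FC_countable C) (Set.subset_union_left : BF lam J f ⊆ FC C) (FC_hat C)
    ((Set.countable_singleton _).insert _) ⟨_, Set.mem_insert _ _⟩ hS
  have hcdM : cd p.l ∈ M := hAM (Set.mem_insert _ _)
  have haM : U.od a0 ∈ M := hAM (Set.mem_insert_of_mem _ (Set.mem_singleton _))
  have hM : Mod lam J f M :=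
    ⟨hMc, ⟨_, hcdM⟩, hMcl.mono (Set.subset_union_left : BF lam J f ⊆ FC C), ⟨0, hMW⟩⟩
  obtain ⟨q, hql, hqp⟩ := add_model p hM hcdM
  refine ⟨q, hqp, d, hdS, ?_⟩
  have hltd : a0 < d := by
    have : a0 ∈ tr M := haM
    rw [htr] at this
    exact this
  refine hC.cl d ⟨a0, hltd⟩ q ?_
  intro a ha r hr
  have hqM : ∃ b ∈ q.l, b.1 = M := by
    rw [hql]
    exact ⟨(M, none), List.mem_append_right _ (List.mem_singleton_self _), rfl⟩
  obtain ⟨q', hq', b, hab, hbd, hqb⟩ := ssp_step hc hC hM hMcl htr hqM hr ha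
  exact ⟨q', hq', b, hab, hbd, hqb⟩

end Pool.Agent.Lib_MP_38e082_mm
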