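import Pool.Agent.Lib_MP_38e082_mm.Stp1

/-!
# STEP2: adding a point to all models of a list

## Proof
The set of `y` with `¬ Unb {x ∈ X | y ∉ f x}` has size `< lam` (`exc_card`), so some `y ∈ Z` of
`step_set` is not in it. `x ∉ f y` for `x ∈ sp (N :: L)`: `Bd N.1 x` (`val_bd_head`) with `Rel.refl` and
the set `Y` (`∀ z ∈ f y, z < x`). `Rel b.1 (ext b.1 y)`: `Rel.step Rel.refl`, `st Y ∈ N.1 ⊆ b.1`
(`val_pw`). `Val (mv ..)`: models: `ext_countable`, `ext_closed` with `BF_hat`, nonempty (`sub_ext`),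
good (or `Rel.mod`); adjacency: `mc b.1 ∈ c.1 ⊆ ext c.1 y`, `pt y ∈ ext c.1 y` (`pt_ext`), so
`mc (ext b.1 y) ∈ ext c.1 y` (`cl_ex`); `Bd`: `Bd.rel`.
-/

open Cardinal Set

namespace Pool.Agent.Lib_MP_38e082_mm

variable {K : Type} [LinearOrder K] {lam : Cardinal.{0}} {J : ℕ → Set K} {f : K → Set K}

/-- adding the point `y` to all models of a list -/
def mv (l : List (Blk K)) (y : K) : List (Blk K) := l.map fun b => (ext b.1 y, b.2)

theorem step (hc : Ctx K lam J f) (N : Blk K) (L : List (Blk K))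
    (hv : Val lam J f (N :: L)) {Y : Set K} (hY : U.st Y ∈ N.1) (hl : #Y = lam)
    {X : Set K} (hX : Unb X) :
    ∃ y ∈ Y, Val lam J f (mv (N :: L) y) ∧ (∀ b ∈ N :: L, Rel lam J b.1 (ext b.1 y)) ∧
      (∀ x ∈ sp (N :: L), y ∉ f x ∧ x ∉ f y) ∧ Unb {x | x ∈ X ∧ y ∉ f x} := by
  obtain ⟨Z, hZY, hZc, hZ⟩ := step_set hc N L hv hY hl
  obtain ⟨y, hyZ, hyE⟩ : ∃ y ∈ Z, y ∉ {y | ¬ Unb {x | x ∈ X ∧ y ∉ f x}} := by
    by_contra hcon
    have hsub : Z ⊆ {y | ¬ Unb {x | x ∈ X ∧ y ∉ f x}} := by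
      intro y hy
      by_contra h
      exact hcon ⟨y, hy, h⟩
    have h1 := Cardinal.mk_le_mk_of_subset hsub
    rw [hZc] at h1
    exact absurd h1 (not_le.2 (exc_card hc hX))
  have hyE' : Unb {x | x ∈ X ∧ y ∉ f x} := by
    by_contra h
    exact hyE h
  obtain ⟨hb, hx⟩ := hZ y hyZ
  have hyY := hZY hyZ
  have hpw := val_pw hv
  have hsub : ∀ b ∈ N :: L, N.1 ⊆ b.1 := by
    intro b hb
    rcases List.mem_cons.1 hb with rfl | hb
    · exact subset_rfl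
    · exact ((List.pairwise_cons.1 hpw).1 b hb).2
  have hrel : ∀ b ∈ N :: L, Rel lam J b.1 (ext b.1 y) := fun b hbm =>
    Rel.step Rel.refl (hsub b hbm hY) hl hyY (hb b hbm).1 (hb b hbm).2
  have hmod : ∀ b ∈ N :: L, Mod lam J f b.1 := hv.md
  refine ⟨y, hyY, ⟨?_, ?_, ?_⟩, hrel, ?_, hyE'⟩
  · intro b hbm
    simp only [mv, List.mem_map] at hbm
    obtain ⟨c, hcm, rfl⟩ := hbm
    exact (hrel c hcm).mod (hmod c hcm)
  · refine List.Pairwise.isChain ?_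
    rw [mv, List.pairwise_map]
    refine hpw.imp_of_mem ?_
    intro b c hbm hcm hbc
    have hcM := hmod c hcm
    have hbM := hmod b hbm
    have hcl : Closed (BF lam J f) (ext c.1 y) := ext_closed BF_hat hcM.cl y
    refine ⟨cl_ex hcl (sub_ext hcM.cl y hbc.1.1) hbM.ct hbM.ne (pt_ext hcM.cl hcM.ne y), ?_⟩
    intro x hx
    exact sub_ext hcM.cl y (hbc.1.2 x hx)
  · intro b hbm x hbx
    simp only [mv, List.mem_map] at hbm
    obtain ⟨c, hcm, rfl⟩ := hbm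
    exact Bd.rel (hrel c hcm) (hv.bd c hcm x hbx)
  · intro x hxs
    refine ⟨hx x hxs, fun hxy => ?_⟩
    have h1 := ((val_bd_head hc hv x hxs) N.1 Rel.refl).2 Y hY hl
    exact lt_irrefl x (h1.1 y hyY x hxy)

end Pool.Agent.Lib_MP_38e082_mm
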