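import Pool.Agent.Lib_MP_38e082_mm.Tree1
import Pool.Agent.Lib_MP_38e082_mm.Stp

/-!
# TREE2: going down a tree of points

## Proof of `choose_pts`
Induction on `k`, generalizing `z`, `N`, `L`, `X`. `k = 0`: `ys = []`. `k + 1`: `A = st Y`,
`Y = pick lam X'`, `X' = {x | Full Φ k (x :: z)}` unbounded, so `lam < #X'` (`unb`) and `Y ⊆ X'`,
`#Y = lam` (definition of `pick`). `step` gives `y ∈ Y`; `Tc k (y :: z) ∈ ext N.1 y` (by definition of
`ext`, as `fn (fun x => Tc k (x :: z)) ∈ N.1`). Use the induction hypothesis for `y :: z`,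
`mv (N :: L) y` and `{x ∈ X | y ∉ f x}` (`sp (mv l y) = sp l`, second components are unchanged);
`ys = ys' ++ [y]`.
-/

open Cardinal Set

namespace Pool.Agent.Lib_MP_38e082_mm

variable {K : Type} [LinearOrder K] {lam : Cardinal.{0}} {J : ℕ → Set K} {f : K → Set K}

private theorem tree_f2 {y : K} {l l' : List (Blk K)}
    (h : List.Forall₂ (fun b c : Blk K => Rel lam J (ext b.1 y) c.1) l l')
    (hm : ∀ b ∈ l, Rel lam J b.1 (ext b.1 y)) :
    List.Forall₂ (fun b c : Blk K => Rel lam J b.1 c.1) l l' := by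
  induction h with
  | nil => exact List.Forall₂.nil
  | cons h1 _ ih =>
    exact List.Forall₂.cons ((hm _ (by simp)).trans h1)
      (ih fun b hb => hm b (List.mem_cons_of_mem _ hb))

private theorem tree_sp (l : List (Blk K)) (y : K) : sp (mv l y) = sp l := by
  ext x
  simp [sp, mv]

private theorem tree_pick {X : Set K} (h : lam < #X) : pick lam X ⊆ X ∧ #(pick lam X) = lam := by
  have h1 : ∃ Y ⊆ X, #Y = lam := by
    obtain ⟨p, hp, hp2⟩ := Cardinal.le_mk_iff_exists_subset.1 h.le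
    exact ⟨p, hp, hp2⟩
  unfold pick
  rw [dif_pos h1]
  exact h1.choose_spec

theorem choose_pts [Nonempty K] (hc : Ctx K lam J f) (Φ : List K → Prop) (R : List K → U K)
    (k : ℕ) (z : List K) (N : Blk K) (L : List (Blk K)) (hv : Val lam J f (N :: L))
    (hT : Tc lam Φ R k z ∈ N.1) (hF : Full Φ k z) {X : Set K} (hX : Unb X) :
    ∃ (ys : List K) (N' : Blk K) (L' : List (Blk K)), Val lam J f (N' :: L') ∧
      (N' :: L').map Prod.snd = (N :: L).map Prod.snd ∧
      List.Forall₂ (fun b c : Blk K => Rel lam J b.1 c.1) (N :: L) (N' :: L') ∧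
      Φ (ys ++ z) ∧ R (ys ++ z) ∈ N'.1 ∧ (∀ y ∈ ys, ∀ x ∈ sp (N :: L), y ∉ f x ∧ x ∉ f y) ∧
      Unb {x | x ∈ X ∧ ∀ y ∈ ys, y ∉ f x} := by
  induction k generalizing z N L X with
  | zero =>
    refine ⟨[], N, L, hv, rfl, ?_, hF, hT, ?_, ?_⟩
    · exact List.forall₂_same.2 fun b _ => Rel.refl
    · intro y hy
      simp at hy
    · intro b
      obtain ⟨x, hx, hb⟩ := hX b
      exact ⟨x, ⟨hx, by intro y hy; simp at hy⟩, hb⟩
  | succ k ih =>
    have hM := (hv.md N (by simp)).cl
    have hF' : Unb {x | Full Φ k (x :: z)} := hF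
    have hT' : pr (U.st (pick lam {x | Full Φ k (x :: z)}))
        (U.fn fun x => Tc lam Φ R k (x :: z)) ∈ N.1 := by
      have h := hT
      simp only [Tc] at h
      rw [if_pos hF] at h
      exact h
    obtain ⟨hp1, hp2⟩ := tree_pick (hc.unb _ hF')
    obtain ⟨y, hy, hv', hr, hxy, hX'⟩ := step hc N L hv (cl_fst hM hT') hp2 hX
    have hT2 : Tc lam Φ R k (y :: z) ∈ ext N.1 y := ⟨_, cl_snd hM hT', rfl⟩
    obtain ⟨ys, N', L', h1, h2, h3, h4, h5, h6, h7⟩ :=
      ih (y :: z) (ext N.1 y, N.2) (mv L y) hv' hT2 (hp1 hy) hX'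
    refine ⟨ys ++ [y], N', L', h1, ?_, ?_, ?_, ?_, ?_, ?_⟩
    · rw [h2]
      simp [mv]
    · have h3' : List.Forall₂ (fun b c : Blk K => Rel lam J b.1 c.1)
          ((N :: L).map fun b => (ext b.1 y, b.2)) (N' :: L') := h3
      rw [List.forall₂_map_left_iff] at h3'
      exact tree_f2 h3' hr
    · simpa using h4
    · simpa using h5
    · intro y' hy' x hx
      rcases List.mem_append.1 hy' with h | h
      · refine h6 y' h x ?_
        have : sp (mv (N :: L) y) = sp (N :: L) := tree_sp _ _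
        rw [← this] at hx
        exact hx
      · rw [List.mem_singleton] at h
        rw [h]
        exact hxy x hx
    · intro b
      obtain ⟨x, ⟨⟨hx1, hx2⟩, hx3⟩, hb⟩ := h7 b
      refine ⟨x, ⟨hx1, ?_⟩, hb⟩
      intro y' hy'
      rcases List.mem_append.1 hy' with h | h
      · exact hx3 y' h
      · rw [List.mem_singleton] at h
        rw [h]
        exact hx2

end Pool.Agent.Lib_MP_38e082_mm
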