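import Pool.Agent.Lib_MP_38e082_mm.Amal
import Pool.Agent.Lib_MP_38e082_mm.Tree

/-!
# SSP1: one step

## Proof
`ssp_step` (one step): `M` closed under `FC C`, good, `tr M = Iio d`, `(M, none) ∈ q.l`, `r ≤ q`, `a < d`.
By `C.un` there is `r1 ≤ r`, `b > a` with `r1 ∈ C b`. As `r1 ≤ q` there is a block `c ∈ r1.l` with
`Rel M c.1`, write `r1.l = l0 ++ c :: L`. `c.1` is closed under `FC C` (`Rel.closed`), `tr c.1 = Iio d`,
contains `od a` and `cd l0` (`val_pw`, `cd_mem`). So the code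
`gC C k (od a) (cd l0) = Tc lam (PhiC C a l0) (RC C a l0) k []` is in `c.1` for `k = (xs (c :: L)).length`.
`PhiC C a l0 ((xs (c :: L)).reverse ++ [])` holds with witness `r1` (`mem_xs`, `sp_append`, `Rel.refl`).
`full_up`, then `choose_pts` with `X = Av f (sp r1.l)` give `ys`, `N'`, `L'`; `RC_spec` gives `t`, `b'`
with `RC .. = pr (cd t.l) (od b') ∈ N'.1`, so `cd t.l ∈ N'.1` and `b' ∈ tr N'.1 = tr c.1 = Iio d`
(`Rel.tr_eq`, first pair of the `Forall₂`). `amalg` gives `q' ≤ r1`, `q' ≤ t`, so `q' ∈ C b'` (`C.op`).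
-/

open Cardinal Set

namespace Pool.Agent.Lib_MP_38e082_mm

variable {K : Type} [LinearOrder K] {lam : Cardinal.{0}} {J : ℕ → Set K} {f : K → Set K}

theorem ssp_step (hc : Ctx K lam J f) [Nonempty K] {C : Om → Set (Cond lam J f)}
    (hC : ClubName C) {M : Set (U K)} (hM : Mod lam J f M) (hcl : Closed (FC C) M) {d : Om}
    (ht : tr M = Set.Iio d) {q r : Cond lam J f} (hq : ∃ b ∈ q.l, b.1 = M) (hr : r ≤ q)
    {a : Om} (ha : a < d) : ∃ q' ≤ r, ∃ b, a < b ∧ b < d ∧ q' ∈ C b := by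
  obtain ⟨r1, hr1, b, hab, hrb⟩ := hC.un a r
  have h1 : CLe r1 q := cle_trans hr1 hr
  obtain ⟨bq, hbq, rfl⟩ := hq
  obtain ⟨c, hc1, hrel⟩ := h1.2 bq hbq
  obtain ⟨l0, L, hl⟩ := List.append_of_mem hc1
  have hv : Val lam J f (l0 ++ c :: L) := hl ▸ r1.va
  have hv0 := val_left hv
  have hv1 := val_right hv
  have hcM : Mod lam J f c.1 := r1.va.md c hc1
  have hccl : Closed (FC C) c.1 := Rel.closed (FC_hat C) hrel hcl
  have htr : tr c.1 = Set.Iio d := by rw [Rel.tr_eq hrel, ht]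
  have hoa : U.od a ∈ c.1 := by
    have h2 : a ∈ tr c.1 := by
      rw [htr]
      exact ha
    exact h2
  have hcd : cd l0 ∈ c.1 := by
    apply cd_mem hcM.cl hcM.ne
    intro e he
    have h2 := val_pw hv
    rw [List.pairwise_append] at h2
    exact (h2.2.2 e he c (by simp)).1
  have hT : Tc lam (PhiC C a l0) (RC C a l0) (xs (c :: L)).length [] ∈ c.1 := by
    rw [← gC_spec C _ a hv0]
    exact hccl _ (Or.inr ⟨((xs (c :: L)).length, 0), rfl⟩) _ hoa _ hcd
  have hΦ : PhiC C a l0 ((xs (c :: L)).reverse ++ []) := by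
    refine ⟨r1, b, hab, hrb, fun e he => ⟨e, ?_, Rel.refl⟩, ?_⟩
    · rw [hl]
      simp [he]
    · rw [hl, sp_append]
      congr 1
      ext x
      rw [← mem_xs]
      simp
  have hF := full_up hc _ _ c L [] hv1 hT hΦ
  obtain ⟨ys, N', L', hv', hsnd, hrel', hΦ', hR, hfree, hun⟩ :=
    choose_pts hc (PhiC C a l0) (RC C a l0) _ [] c L hv1 hT hF r1.gd
  simp only [List.append_nil] at hΦ' hR
  obtain ⟨t, b', hab', htb, ht1, ht2, hR'⟩ := RC_spec hΦ'
  rw [hR'] at hR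
  have hvN : Closed (BF lam J f) N'.1 := (hv'.md N' (by simp)).cl
  have hcdt := cl_fst hvN hR
  have hob := cl_snd hvN hR
  have hNr : Rel lam J c.1 N'.1 := by
    cases hrel'
    assumption
  have htrN : tr N'.1 = Set.Iio d := by rw [Rel.tr_eq hNr, htr]
  have hb'd : b' < d := by
    have h2 : b' ∈ tr N'.1 := hob
    rw [htrN] at h2
    exact h2
  obtain ⟨q', hq'l, hq'r, hq't⟩ :=
    amalg (r := r1) (t := t) hl ht1 ht2 hv' hcdt hsnd hrel' hfree hun
  exact ⟨q', cle_trans hq'r hr1, b', hab', hb'd, hC.op b' t htb q' hq't⟩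

end Pool.Agent.Lib_MP_38e082_mm
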