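import Pool.Agent.Lib_MP_38e082_mm.Lst1

/-!
# STEP1: the good points for all models of a list

## Proof
Induction on `L`, generalizing `N`, `Y`. Let `Z0 = Good J N.1 Y`, size `lam`
(`good_card`), and `Z1 = Z0` or `Z0 \ f x` if `N.2 = some x`, size `lam` (`Bd N.1 x` with `Rel.refl`,
last part). If `L = []` take `Z = Z1`. If `L = N' :: L'`: `mc N.1 ∈ N'.1`, `st Y ∈ N.1 ⊆ N'.1`
(`val_pw`), so `st Z1 ∈ N'.1` (`cl_gd`, `cl_df`); apply the induction hypothesis to `N'`, `L'`, `Z1`.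
-/

open Cardinal Set

namespace Pool.Agent.Lib_MP_38e082_mm

variable {K : Type} [LinearOrder K] {lam : Cardinal.{0}} {J : ℕ → Set K} {f : K → Set K}

theorem step1_head (hc : Ctx K lam J f) (N : Blk K) (L : List (Blk K))
    (hv : Val lam J f (N :: L)) {Y : Set K} (hY : U.st Y ∈ N.1) (hl : #Y = lam) :
    ∃ Z ⊆ Y, #Z = lam ∧ (∀ y ∈ Z, (tr (ext N.1 y) = tr N.1 ∧ Gd J (ext N.1 y)) ∧
      ∀ x, N.2 = some x → y ∉ f x) ∧ ∀ N' ∈ L, U.st Z ∈ N'.1 := by
  have hN := hv.md N List.mem_cons_self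
  have hpw := (List.pairwise_cons.1 (val_pw hv)).1
  have hgc := good_card hc hN.cl hN.gd hY hl
  have hmem : ∀ N' ∈ L, U.st (Good J N.1 Y) ∈ N'.1 := by
    intro N' hN'
    have h1 := hpw N' hN'
    exact cl_gd (hv.md N' (List.mem_cons_of_mem _ hN')).cl h1.1.1 hN.ct hN.ne (h1.2 hY)
  rcases hx : N.2 with _ | x
  · refine ⟨Good J N.1 Y, fun y hy => hy.1, hgc, ?_, hmem⟩
    intro y hy
    refine ⟨hy.2, ?_⟩
    intro x hx'
    exact absurd hx' (by simp)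
  · refine ⟨Good J N.1 Y \ f x, fun y hy => hy.1.1, ?_, ?_, ?_⟩
    · exact ((hv.bd N List.mem_cons_self x hx N.1 Rel.refl).2 Y hY hl).2
    · intro y hy
      refine ⟨hy.1.2, ?_⟩
      intro x' hx'
      rw [← Option.some.inj hx']
      exact hy.2
    · intro N' hN'
      have h1 := hpw N' hN'
      exact cl_df (hv.md N' (List.mem_cons_of_mem _ hN')).cl (hmem N' hN') (h1.1.2 x hx)

theorem step_set (hc : Ctx K lam J f) (N : Blk K) (L : List (Blk K))
    (hv : Val lam J f (N :: L)) {Y : Set K} (hY : U.st Y ∈ N.1) (hl : #Y = lam) :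
    ∃ Z ⊆ Y, #Z = lam ∧ ∀ y ∈ Z, (∀ b ∈ N :: L, tr (ext b.1 y) = tr b.1 ∧ Gd J (ext b.1 y)) ∧
      ∀ x ∈ sp (N :: L), y ∉ f x := by
  induction L generalizing N Y with
  | nil =>
    obtain ⟨Z, h1, h2, h3, -⟩ := step1_head hc N [] hv hY hl
    refine ⟨Z, h1, h2, fun y hy => ⟨?_, ?_⟩⟩
    · intro b hb
      rw [List.mem_singleton.1 hb]
      exact (h3 y hy).1
    · rintro x ⟨b, hb, hx⟩
      rw [List.mem_singleton.1 hb] at hx
      exact (h3 y hy).2 x hx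
  | cons N' L ih =>
    obtain ⟨Z, h1, h2, h3, h4⟩ := step1_head hc N (N' :: L) hv hY hl
    obtain ⟨Z', k1, k2, k3⟩ := ih N' (val_tail hv) (h4 N' List.mem_cons_self) h2
    refine ⟨Z', k1.trans h1, k2, fun y hy => ⟨?_, ?_⟩⟩
    · intro b hb
      rcases List.mem_cons.1 hb with rfl | hb'
      · exact (h3 y (k1 hy)).1
      · exact (k3 y hy).1 b hb'
    · rintro x ⟨b, hb, hx⟩
      rcases List.mem_cons.1 hb with rfl | hb'
      · exact (h3 y (k1 hy)).2 x hx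
      · exact (k3 y hy).2 x ⟨b, hb', hx⟩

end Pool.Agent.Lib_MP_38e082_mm
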