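import Pool.Agent.Lib_MP_38e082_mm.Lst1

/-!
# TREE1: going up a tree of points

## Proof of `full_up`
Induction on `L`, generalizing `N`, `z`. Case `N.2 = none`: `xs (N :: L) = xs L`; if `L = []`,
`Full Φ 0 z = Φ z`; if `L = N' :: L'`: the code is in `N.1 ⊆ N'.1` (`val_pw`), induction hypothesis. Case
`N.2 = some x`: `xs (N :: L) = x :: xs L`, `(x :: xs L).reverse ++ z = (xs L).reverse ++ (x :: z)`. Let
`k = (xs L).length`. First `Full Φ k (x :: z)`: if `L = []` this is `Φ (x :: z)`; if `L = N' :: L'`: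
`Tc (k+1) z = pr A (fn (fun x => Tc k (x :: z))) ∈ N.1 ⊆ N'.1`, `pt x ∈ N'.1`, so
`Tc k (x :: z) ∈ N'.1` (`cl_snd`, `cl_ap`), induction hypothesis. If `Full Φ (k+1) z` fails then
`A = pt (bnd X)`, `X = {x | Full Φ k (x :: z)}`, is in `N.1` (`cl_fst`), `X` is bounded so
`x < bnd X` (definition of `bnd`), but `Bd N.1 x` gives `bnd X < x`.
-/

open Cardinal Set

namespace Pool.Agent.Lib_MP_38e082_mm

variable {K : Type} [LinearOrder K] {lam : Cardinal.{0}} {J : ℕ → Set K} {f : K → Set K}

/-- the points of a list of blocks, in order -/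
def xs (l : List (Blk K)) : List K := l.filterMap Prod.snd

theorem mem_xs (l : List (Blk K)) (x : K) : x ∈ xs l ↔ x ∈ sp l := by
  unfold xs sp
  rw [List.mem_filterMap]
  rfl

theorem tree1_val_tail {N : Blk K} {L : List (Blk K)} (hv : Val lam J f (N :: L)) :
    Val lam J f L where
  md := fun b hb => hv.md b (List.mem_cons_of_mem _ hb)
  ch := hv.ch.tail
  bd := fun b hb => hv.bd b (List.mem_cons_of_mem _ hb)

theorem tree1_lk {N N' : Blk K} {L : List (Blk K)} (hv : Val lam J f (N :: N' :: L)) :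
    Lk N N' ∧ N.1 ⊆ N'.1 := by
  have h := val_pw hv
  rw [List.pairwise_cons] at h
  exact h.1 N' (List.mem_cons_self)

theorem tree1_xs_none {N : Blk K} (L : List (Blk K)) (h : N.2 = none) : xs (N :: L) = xs L := by
  unfold xs
  rw [List.filterMap_cons_none h]

theorem tree1_xs_some {N : Blk K} (L : List (Blk K)) {x : K} (h : N.2 = some x) :
    xs (N :: L) = x :: xs L := by
  unfold xs
  rw [List.filterMap_cons_some h]

theorem tree1_bnd [Nonempty K] {X : Set K} (h : ¬ Unb X) : ∀ x ∈ X, x < bnd X := by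
  have h1 : ∃ b, ∀ x ∈ X, x < b := by
    unfold Unb at h
    push Not at h
    exact h
  unfold bnd
  rw [dif_pos h1]
  exact h1.choose_spec

theorem full_up [Nonempty K] (hc : Ctx K lam J f) (Φ : List K → Prop) (R : List K → U K)
    (N : Blk K) (L : List (Blk K)) (z : List K) (hv : Val lam J f (N :: L))
    (hT : Tc lam Φ R (xs (N :: L)).length z ∈ N.1) (hΦ : Φ ((xs (N :: L)).reverse ++ z)) :
    Full Φ (xs (N :: L)).length z := by
  induction L generalizing N z with
  | nil =>
    rcases hN : N.2 with _ | x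
    · rw [tree1_xs_none [] hN] at hΦ ⊢
      exact hΦ
    · rw [tree1_xs_some [] hN] at hT hΦ ⊢
      have h0 : Full Φ 0 (x :: z) := hΦ
      by_contra hcon
      have hM := hv.md N (List.mem_cons_self)
      have h1 : Tc lam Φ R 1 z ∈ N.1 := hT
      unfold Tc at h1
      rw [if_neg (show ¬ Full Φ (0 + 1) z from hcon)] at h1
      have h2 := cl_fst hM.cl h1
      have h3 := tree1_bnd (show ¬ Unb {x | Full Φ 0 (x :: z)} from hcon) x h0
      have h4 := (hv.bd N (List.mem_cons_self) x hN N.1 Rel.refl).1 _ h2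
      exact lt_asymm h3 h4.1
  | cons N' L ih =>
    have hv' := tree1_val_tail hv
    obtain ⟨hlk, hsub⟩ := tree1_lk hv
    rcases hN : N.2 with _ | x
    · rw [tree1_xs_none (N' :: L) hN] at hT hΦ ⊢
      exact ih N' z hv' (hsub hT) hΦ
    · rw [tree1_xs_some (N' :: L) hN] at hT hΦ ⊢
      have hM := hv.md N (List.mem_cons_self)
      have hM' := hv'.md N' (List.mem_cons_self)
      have h1 : Tc lam Φ R ((xs (N' :: L)).length + 1) z ∈ N.1 := hT
      have h0 : Full Φ (xs (N' :: L)).length (x :: z) := by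
        refine ih N' (x :: z) hv' ?_ ?_
        · have h2 := hsub h1
          unfold Tc at h2
          have h3 := cl_snd hM'.cl h2
          exact cl_ap hM'.cl h3 (hlk.2 x hN)
        · have h5 : (x :: xs (N' :: L)).reverse ++ z = (xs (N' :: L)).reverse ++ (x :: z) := by
            simp
          rw [← h5]
          exact hΦ
      by_contra hcon
      unfold Tc at h1
      rw [if_neg (show ¬ Full Φ ((xs (N' :: L)).length + 1) z from hcon)] at h1
      have h2 := cl_fst hM.cl h1
      have h3 := tree1_bnd (show ¬ Unb {x | Full Φ (xs (N' :: L)).length (x :: z)} from hcon) x h0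
      have h4 := (hv.bd N (List.mem_cons_self) x hN N.1 Rel.refl).1 _ h2
      exact lt_asymm h3 h4.1

end Pool.Agent.Lib_MP_38e082_mm
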